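import Mathlib

/-!
# Cancellation for systems of orthogonal idempotents with prescribed images
-/

open Finset

namespace Pool.Agent.W543.CK

section inv

variable {R : Type*} [Ring R]

/-- Inverses in a corner ring. -/
lemma corner_inv {u y : R} (hu : u * u = u) (h1 : u * y = y) (h2 : y * u = y)
    (hn : IsNilpotent y) : ∃ c : R, u * c = c ∧ c * u = c ∧ c * (u - y) = u ∧ (u - y) * c = u ∧
      ∀ {S : Type*} [Ring S] (φ : R →+* S), φ y = 0 → φ c = φ u := by
  obtain ⟨N, hN⟩ := hn
  have hc : Commute u y := by rw [Commute, SemiconjBy, h1, h2]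
  have hcs : Commute u (∑ m ∈ range N, y ^ m) :=
    Commute.sum_right _ _ _ fun m _ => hc.pow_right m
  have hg : (∑ m ∈ range N, y ^ m) * (1 - y) = 1 := by
    rw [geom_sum_mul_neg, hN, sub_zero]
  have hg' : (1 - y) * (∑ m ∈ range N, y ^ m) = 1 := by
    rw [mul_neg_geom_sum, hN, sub_zero]
  have e1 : u - y = u * (1 - y) := by rw [mul_sub, mul_one, h1]
  have e2 : u - y = (1 - y) * u := by rw [sub_mul, one_mul, h2]
  refine ⟨u * ∑ m ∈ range N, y ^ m, ?_, ?_, ?_, ?_, ?_⟩
  · rw [← mul_assoc, hu]
  · rw [mul_assoc, ← hcs.eq, ← mul_assoc, hu]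
  · rw [e1]
    calc u * (∑ m ∈ range N, y ^ m) * (u * (1 - y)) =
        u * ((∑ m ∈ range N, y ^ m) * u) * (1 - y) := by simp only [mul_assoc]
      _ = u * (u * (∑ m ∈ range N, y ^ m)) * (1 - y) := by rw [hcs.eq]
      _ = u * u * ((∑ m ∈ range N, y ^ m) * (1 - y)) := by simp only [mul_assoc]
      _ = u := by rw [hg, hu, mul_one]
  · rw [e2]
    calc (1 - y) * u * (u * (∑ m ∈ range N, y ^ m)) =
        (1 - y) * (u * u * (∑ m ∈ range N, y ^ m)) := by simp only [mul_assoc]
      _ = (1 - y) * ((∑ m ∈ range N, y ^ m) * u) := by rw [hu, hcs.eq]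
      _ = u := by rw [← mul_assoc, hg', one_mul]
  · intro S _ φ hφ
    rw [map_mul, map_sum]
    rcases Nat.eq_zero_or_pos N with h0 | hpos
    · have h3 : (1 : R) = 0 := by rw [← hg, h0, Finset.range_zero, Finset.sum_empty, zero_mul]
      have h4 : u = 0 := by rw [← mul_one u, h3, mul_zero]
      rw [h4, map_zero, zero_mul]
    · rw [Finset.sum_eq_single_of_mem 0 (Finset.mem_range.2 hpos), pow_zero, map_one, mul_one]
      intro m _ hm
      rw [map_pow, hφ, zero_pow hm]

end inv

variable {R S : Type*} [Ring R] [Ring S]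

/-- **Cancellation.** -/
theorem cancel (φ : R →+* S) (n : ℕ) {h : ℕ → S} {p : ℕ → R}
    (hp : ∀ i j, p i * p j = if i = j then p i else 0) (hps : ∑ j ∈ range n, p j = 1)
    (hp0 : ∀ j, n ≤ j → p j = 0) (hφp : ∀ j, φ (p j) = h j) {f : R} {q : ℕ → R}
    (hq : ∀ i j, q i * q j = if i = j then q i else 0) (hqs : ∑ j ∈ range n, q j = f)
    (hq0 : ∀ j, n ≤ j → q j = 0) (hφq : ∀ j, φ (q j) = φ f * h j)
    (hcomm : ∀ j, h j * φ f = φ f * h j)
    (hnil : ∀ x, f * x = x → x * f = x → φ x = 0 → IsNilpotent x) :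
    ∃ g : ℕ → R, (∀ i j, g i * g j = if i = j then g i else 0) ∧ ∑ j ∈ range n, g j = 1 - f ∧
      (∀ j, n ≤ j → g j = 0) ∧ (∀ j, (1 - f) * g j = g j) ∧ (∀ j, g j * (1 - f) = g j) ∧
      ∀ j, φ (g j) = (1 - φ f) * h j := by
  classical
  have hhh : ∀ i j, h i * h j = if i = j then h i else 0 := by
    intro i j
    rw [← hφp, ← hφp, ← map_mul, hp]
    split_ifs
    · rfl
    · exact map_zero φ
  have hsum : ∑ j ∈ range n, h j = 1 := by
    rw [← map_one φ, ← hps, map_sum]
    exact Finset.sum_congr rfl fun j _ => (hφp j).symm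
  have fq : ∀ j, f * q j = q j := by
    intro j
    by_cases hj : j < n
    · rw [← hqs, Finset.sum_mul, Finset.sum_eq_single_of_mem j (Finset.mem_range.2 hj), hq,
        if_pos rfl]
      intro i _ hij
      rw [hq, if_neg hij]
    · rw [hq0 j (by omega), mul_zero]
  have qf : ∀ j, q j * f = q j := by
    intro j
    by_cases hj : j < n
    · rw [← hqs, Finset.mul_sum, Finset.sum_eq_single_of_mem j (Finset.mem_range.2 hj), hq,
        if_pos rfl]
      intro i _ hij
      rw [hq, if_neg (Ne.symm hij)]
    · rw [hq0 j (by omega), zero_mul]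
  have hff : f * f = f := by
    nth_rewrite 2 [← hqs]
    rw [Finset.mul_sum, Finset.sum_congr rfl fun j _ => fq j, hqs]
  have hφff : φ f * φ f = φ f := by rw [← map_mul, hff]
  have qq : ∀ j, q j * q j = q j := fun j => by rw [hq, if_pos rfl]
  have pp : ∀ j, p j * p j = p j := fun j => by rw [hp, if_pos rfl]
  -- the inverses of `q j * p j * q j`
  have hc : ∀ j, ∃ c : R, q j * c = c ∧ c * q j = c ∧ c * (q j * p j * q j) = q j ∧
      (q j * p j * q j) * c = q j ∧ φ c = φ (q j) := by
    intro j
    have h1 : q j * (q j - q j * p j * q j) = q j - q j * p j * q j := by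
      rw [mul_sub, qq, ← mul_assoc, ← mul_assoc, qq]
    have h2 : (q j - q j * p j * q j) * q j = q j - q j * p j * q j := by
      rw [sub_mul, qq, mul_assoc, qq]
    have h3 : φ (q j - q j * p j * q j) = 0 := by
      rw [map_sub, map_mul, map_mul, hφp, hφq, sub_eq_zero]
      have h4 : h j * h j = h j := by rw [hhh, if_pos rfl]
      calc φ f * h j = φ f * φ f * (h j * h j * h j) := by rw [hφff, h4, h4]
        _ = φ f * (φ f * h j) * (h j * h j) := by simp only [mul_assoc]
        _ = φ f * (h j * φ f) * (h j * h j) := by rw [hcomm]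
        _ = φ f * h j * (φ f * h j) * h j := by simp only [mul_assoc]
        _ = φ f * h j * (h j * φ f) * h j := by rw [hcomm]
        _ = φ f * h j * h j * (φ f * h j) := by simp only [mul_assoc]
    have h5 : IsNilpotent (q j - q j * p j * q j) := by
      refine hnil _ ?_ ?_ h3
      · rw [mul_sub, fq, ← mul_assoc, ← mul_assoc, fq]
      · rw [sub_mul, qf, mul_assoc, qf]
    obtain ⟨c, c1, c2, c3, c4, c5⟩ := corner_inv (qq j) h1 h2 h5
    rw [sub_sub_cancel] at c3 c4
    exact ⟨c, c1, c2, c3, c4, c5 φ h3⟩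
  choose c c1 c2 c3 c4 c5 using hc
  have cpc : ∀ j, c j * p j * c j = c j := by
    intro j
    calc c j * p j * c j = c j * q j * p j * (q j * c j) := by rw [c2, c1]
      _ = c j * (q j * p j * q j) * c j := by simp only [mul_assoc]
      _ = c j := by rw [c3, c1]
  have cic : ∀ i j, i ≠ j → q i * c j = 0 := by
    intro i j hij
    rw [← c1 j, ← mul_assoc, hq, if_neg hij, zero_mul]
  have fc : ∀ j, f * c j = c j := by
    intro j
    rw [← c1 j, ← mul_assoc, fq]
  have cf : ∀ j, c j * f = c j := by
    intro j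
    rw [← c2 j, mul_assoc, qf]
  set w : R := ∑ j ∈ range n, c j * p j with hw
  set v : R := ∑ j ∈ range n, p j * q j with hv
  have fw : f * w = w := by
    rw [hw, Finset.mul_sum]
    exact Finset.sum_congr rfl fun j _ => by rw [← mul_assoc, fc]
  have vf : v * f = v := by
    rw [hv, Finset.sum_mul]
    exact Finset.sum_congr rfl fun j _ => by rw [mul_assoc, qf]
  have wp : ∀ j < n, w * p j = c j * p j := by
    intro j hj
    rw [hw, Finset.sum_mul, Finset.sum_eq_single_of_mem j (Finset.mem_range.2 hj), mul_assoc, pp]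
    intro i _ hij
    rw [mul_assoc, hp, if_neg hij, mul_zero]
  have vw : v * w = ∑ j ∈ range n, p j * c j * p j := by
    rw [hv, hw, Finset.sum_mul]
    apply Finset.sum_congr rfl
    intro j hj
    rw [Finset.mul_sum, Finset.sum_eq_single_of_mem j hj]
    · calc p j * q j * (c j * p j) = p j * (q j * c j) * p j := by simp only [mul_assoc]
        _ = _ := by rw [c1]
    · intro i _ hij
      calc p j * q j * (c i * p i) = p j * (q j * c i) * p i := by simp only [mul_assoc]
        _ = 0 := by rw [cic j i (Ne.symm hij), mul_zero, zero_mul]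
  -- the inverse of `w * f`
  have hφw : φ w = φ f := by
    rw [hw, map_sum]
    calc ∑ j ∈ range n, φ (c j * p j) = ∑ j ∈ range n, φ f * h j := by
          apply Finset.sum_congr rfl
          intro j _
          rw [map_mul, c5, hφp, hφq, mul_assoc, hhh, if_pos rfl]
      _ = φ f := by rw [← Finset.mul_sum, hsum, mul_one]
  obtain ⟨t, t1, t2, t3, t4, t5⟩ : ∃ t : R, f * t = t ∧ t * f = t ∧ t * (w * f) = f ∧
      (w * f) * t = f ∧ φ t = φ f := by
    have h1 : f * (f - w * f) = f - w * f := by rw [mul_sub, hff, ← mul_assoc, fw]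
    have h2 : (f - w * f) * f = f - w * f := by rw [sub_mul, hff, mul_assoc, hff]
    have h3 : φ (f - w * f) = 0 := by rw [map_sub, map_mul, hφw, hφff, sub_self]
    obtain ⟨t, t1, t2, t3, t4, t5⟩ := corner_inv hff h1 h2 (hnil _ h1 h2 h3)
    rw [sub_sub_cancel] at t3 t4
    exact ⟨t, t1, t2, t3, t4, t5 φ h3⟩
  have wt : w * t = f := by
    rw [← t1, ← mul_assoc]; exact t4
  set r : ℕ → R := fun j => p j - p j * c j * p j with hr
  set b : R := 1 - t * w with hb
  have wr : ∀ j < n, w * r j = 0 := by
    intro j hj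
    rw [hr]
    calc w * (p j - p j * c j * p j) = w * p j - w * p j * c j * p j := by
          rw [mul_sub, ← mul_assoc, ← mul_assoc]
      _ = c j * p j - c j * p j * c j * p j := by rw [wp j hj]
      _ = 0 := by rw [cpc, sub_self]
  have r0 : ∀ j, n ≤ j → r j = 0 := by
    intro j hj
    rw [hr]
    change p j - p j * c j * p j = 0
    rw [hp0 j hj, mul_zero, sub_self]
  have br : ∀ j, b * r j = r j := by
    intro j
    by_cases hj : j < n
    · rw [hb, sub_mul, one_mul, mul_assoc, wr j hj, mul_zero, sub_zero]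
    · rw [r0 j (by omega), mul_zero]
  have rr : ∀ i j, r i * r j = if i = j then r i else 0 := by
    intro i j
    have h1 : r i * r j = p i * p j - p i * p j * c j * p j - p i * c i * (p i * p j) +
        p i * c i * (p i * p j) * c j * p j := by
      rw [hr]
      noncomm_ring
    rw [h1, hp]
    split_ifs with hij
    · subst hij
      rw [hr]
      have h2 : p i * c i * p i * c i * p i = p i * c i * p i := by
        calc p i * c i * p i * c i * p i = p i * (c i * p i * c i) * p i := by
              simp only [mul_assoc]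
          _ = _ := by rw [cpc]
      rw [h2]
      abel_nf
    · simp
  have bf : b * f = 0 := by
    rw [hb, sub_mul, one_mul, mul_assoc, t3, sub_self]
  have be : b * (1 - f) = b := by rw [mul_sub, mul_one, bf, sub_zero]
  have eb : (1 - f) * b = 1 - f := by
    rw [hb, mul_sub, mul_one, sub_mul, one_mul, ← mul_assoc f, t1, sub_self, sub_zero]
  have hrs : ∑ j ∈ range n, r j = 1 - v * w := by
    rw [vw, hr, Finset.sum_sub_distrib, hps]
  have hvb : (1 - v * w) * b = b := by
    have h1 : v * w * (t * w) = v * w := by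
      calc v * w * (t * w) = v * (w * t) * w := by simp only [mul_assoc]
        _ = v * w := by rw [wt, vf]
    rw [sub_mul, one_mul]
    nth_rewrite 2 [hb]
    rw [mul_sub, mul_one, h1, sub_self, sub_zero]
  refine ⟨fun j => (1 - f) * r j * b, fun i j => ?_, ?_, fun j hj => ?_, fun j => ?_, fun j => ?_,
    fun j => ?_⟩
  · calc (1 - f) * r i * b * ((1 - f) * r j * b) =
        (1 - f) * r i * (b * (1 - f)) * r j * b := by simp only [mul_assoc]
      _ = (1 - f) * (r i * (b * r j)) * b := by rw [be]; simp only [mul_assoc]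
      _ = (1 - f) * (r i * r j) * b := by rw [br]
      _ = _ := by
        rw [rr]
        split_ifs
        · rfl
        · rw [mul_zero, zero_mul]
  · rw [← Finset.sum_mul, ← Finset.mul_sum, hrs, mul_assoc, hvb, eb]
  · change (1 - f) * r j * b = 0
    rw [r0 j hj, mul_zero, zero_mul]
  · have h1 : (1 - f) * (1 - f) = 1 - f := by rw [mul_sub, mul_one, sub_mul, hff]; simp
    change (1 - f) * ((1 - f) * r j * b) = (1 - f) * r j * b
    rw [← mul_assoc, ← mul_assoc, h1]
  · change (1 - f) * r j * b * (1 - f) = (1 - f) * r j * b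
    rw [mul_assoc, be]
  · have h1 : φ (r j) = (1 - φ f) * h j := by
      rw [hr]
      change φ (p j - p j * c j * p j) = _
      rw [map_sub, map_mul, map_mul, c5, hφq, hφp]
      calc h j - h j * (φ f * h j) * h j = h j - h j * φ f * (h j * h j) := by
            simp only [mul_assoc]
        _ = h j - φ f * h j * h j := by rw [hhh, if_pos rfl, hcomm]
        _ = (1 - φ f) * h j := by rw [mul_assoc, hhh, if_pos rfl, sub_mul, one_mul]
    have h2 : φ b = 1 - φ f := by
      rw [hb, map_sub, map_one, map_mul, t5, hφw, hφff]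
    have h3 : (1 - φ f) * (1 - φ f) = 1 - φ f := by
      rw [mul_sub, mul_one, sub_mul, hφff]; simp
    have h4 : h j * (1 - φ f) = (1 - φ f) * h j := by
      rw [mul_sub, mul_one, sub_mul, one_mul, hcomm]
    change φ ((1 - f) * r j * b) = _
    rw [map_mul, map_mul, map_sub, map_one, h1, h2, ← mul_assoc, h3, mul_assoc, h4, ← mul_assoc, h3]

end Pool.Agent.W543.CK
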