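import Pool.Agent.W543.CK.Cancel
import Pool.Agent.W550.Dual.Sqrt

/-!
# Cancellation for self-adjoint systems of orthogonal idempotents
-/

open Finset

namespace Pool.Agent.W543.CK

variable {R S : Type*} [Ring R] [Ring S]

/-- The main elements of the cancellation. -/
theorem cancel_core (φ : R →+* S) (n : ℕ) {h : ℕ → S} {p : ℕ → R}
    (hp : ∀ i j, p i * p j = if i = j then p i else 0) (hps : ∑ j ∈ range n, p j = 1)
    (hp0 : ∀ j, n ≤ j → p j = 0) (hφp : ∀ j, φ (p j) = h j) {f : R} {q : ℕ → R}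
    (hq : ∀ i j, q i * q j = if i = j then q i else 0) (hqs : ∑ j ∈ range n, q j = f)
    (hq0 : ∀ j, n ≤ j → q j = 0) (hφq : ∀ j, φ (q j) = φ f * h j)
    (hcomm : ∀ j, h j * φ f = φ f * h j)
    (hnil : ∀ x, f * x = x → x * f = x → φ x = 0 → IsNilpotent x) :
    ∃ (r c : ℕ → R) (b v w : R), (∀ j, r j = p j - p j * c j * p j) ∧
      (∀ j, q j * c j = c j) ∧ (∀ j, c j * q j = c j) ∧ (∀ j, c j * (q j * p j * q j) = q j) ∧
      (∀ j, (q j * p j * q j) * c j = q j) ∧
      (∀ i j, r i * r j = if i = j then r i else 0) ∧ ∑ j ∈ range n, r j = 1 - v * w ∧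
      (∀ j, b * r j = r j) ∧ b * (1 - f) = b ∧ f * w = w ∧ v * f = v ∧ φ w = φ f ∧ φ v = φ f ∧
      (∀ j, φ (r j) = (1 - φ f) * h j) ∧ (∀ j, n ≤ j → r j = 0) ∧ f * f = f := by
  classical
  have hhh : ∀ i j, h i * h j = if i = j then h i else 0 := by
    intro i j
    rw [← hφp, ← hφp, ← map_mul, hp]
    split_ifs
    · rfl
    · exact map_zero φ
  have hsum : ∑ j ∈ range n, h j = 1 := by
    rw [← map_one φ, ← hps, map_sum]
    exact Finset.sum_congr rfl fun j _ => (hφp j).symm
  have fq : ∀ j, f * q j = q j := by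
    intro j
    by_cases hj : j < n
    · rw [← hqs, Finset.sum_mul, Finset.sum_eq_single_of_mem j (Finset.mem_range.2 hj), hq,
        if_pos rfl]
      intro i _ hij
      rw [hq, if_neg hij]
    · rw [hq0 j (by omega), mul_zero]
  have qf : ∀ j, q j * f = q j := by
    intro j
    by_cases hj : j < n
    · rw [← hqs, Finset.mul_sum, Finset.sum_eq_single_of_mem j (Finset.mem_range.2 hj), hq,
        if_pos rfl]
      intro i _ hij
      rw [hq, if_neg (Ne.symm hij)]
    · rw [hq0 j (by omega), zero_mul]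
  have hff : f * f = f := by
    nth_rewrite 2 [← hqs]
    rw [Finset.mul_sum, Finset.sum_congr rfl fun j _ => fq j, hqs]
  have hφff : φ f * φ f = φ f := by rw [← map_mul, hff]
  have qq : ∀ j, q j * q j = q j := fun j => by rw [hq, if_pos rfl]
  have pp : ∀ j, p j * p j = p j := fun j => by rw [hp, if_pos rfl]
  -- the inverses of `q j * p j * q j`
  have hc : ∀ j, ∃ c : R, q j * c = c ∧ c * q j = c ∧ c * (q j * p j * q j) = q j ∧
      (q j * p j * q j) * c = q j ∧ φ c = φ (q j) := by
    intro j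
    have h1 : q j * (q j - q j * p j * q j) = q j - q j * p j * q j := by
      rw [mul_sub, qq, ← mul_assoc, ← mul_assoc, qq]
    have h2 : (q j - q j * p j * q j) * q j = q j - q j * p j * q j := by
      rw [sub_mul, qq, mul_assoc, qq]
    have h3 : φ (q j - q j * p j * q j) = 0 := by
      rw [map_sub, map_mul, map_mul, hφp, hφq, sub_eq_zero]
      have h4 : h j * h j = h j := by rw [hhh, if_pos rfl]
      calc φ f * h j = φ f * φ f * (h j * h j * h j) := by rw [hφff, h4, h4]
        _ = φ f * (φ f * h j) * (h j * h j) := by simp only [mul_assoc]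
        _ = φ f * (h j * φ f) * (h j * h j) := by rw [hcomm]
        _ = φ f * h j * (φ f * h j) * h j := by simp only [mul_assoc]
        _ = φ f * h j * (h j * φ f) * h j := by rw [hcomm]
        _ = φ f * h j * h j * (φ f * h j) := by simp only [mul_assoc]
    have h5 : IsNilpotent (q j - q j * p j * q j) := by
      refine hnil _ ?_ ?_ h3
      · rw [mul_sub, fq, ← mul_assoc, ← mul_assoc, fq]
      · rw [sub_mul, qf, mul_assoc, qf]
    obtain ⟨c, c1, c2, c3, c4, c5⟩ := corner_inv (qq j) h1 h2 h5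
    rw [sub_sub_cancel] at c3 c4
    exact ⟨c, c1, c2, c3, c4, c5 φ h3⟩
  choose c c1 c2 c3 c4 c5 using hc
  have cpc : ∀ j, c j * p j * c j = c j := by
    intro j
    calc c j * p j * c j = c j * q j * p j * (q j * c j) := by rw [c2, c1]
      _ = c j * (q j * p j * q j) * c j := by simp only [mul_assoc]
      _ = c j := by rw [c3, c1]
  have cic : ∀ i j, i ≠ j → q i * c j = 0 := by
    intro i j hij
    rw [← c1 j, ← mul_assoc, hq, if_neg hij, zero_mul]
  have fc : ∀ j, f * c j = c j := by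
    intro j
    rw [← c1 j, ← mul_assoc, fq]
  have cf : ∀ j, c j * f = c j := by
    intro j
    rw [← c2 j, mul_assoc, qf]
  set w : R := ∑ j ∈ range n, c j * p j with hw
  set v : R := ∑ j ∈ range n, p j * q j with hv
  have fw : f * w = w := by
    rw [hw, Finset.mul_sum]
    exact Finset.sum_congr rfl fun j _ => by rw [← mul_assoc, fc]
  have vf : v * f = v := by
    rw [hv, Finset.sum_mul]
    exact Finset.sum_congr rfl fun j _ => by rw [mul_assoc, qf]
  have wp : ∀ j < n, w * p j = c j * p j := by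
    intro j hj
    rw [hw, Finset.sum_mul, Finset.sum_eq_single_of_mem j (Finset.mem_range.2 hj), mul_assoc, pp]
    intro i _ hij
    rw [mul_assoc, hp, if_neg hij, mul_zero]
  have vw : v * w = ∑ j ∈ range n, p j * c j * p j := by
    rw [hv, hw, Finset.sum_mul]
    apply Finset.sum_congr rfl
    intro j hj
    rw [Finset.mul_sum, Finset.sum_eq_single_of_mem j hj]
    · calc p j * q j * (c j * p j) = p j * (q j * c j) * p j := by simp only [mul_assoc]
        _ = _ := by rw [c1]
    · intro i _ hij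
      calc p j * q j * (c i * p i) = p j * (q j * c i) * p i := by simp only [mul_assoc]
        _ = 0 := by rw [cic j i (Ne.symm hij), mul_zero, zero_mul]
  -- the inverse of `w * f`
  have hφw : φ w = φ f := by
    rw [hw, map_sum]
    calc ∑ j ∈ range n, φ (c j * p j) = ∑ j ∈ range n, φ f * h j := by
          apply Finset.sum_congr rfl
          intro j _
          rw [map_mul, c5, hφp, hφq, mul_assoc, hhh, if_pos rfl]
      _ = φ f := by rw [← Finset.mul_sum, hsum, mul_one]
  obtain ⟨t, t1, t2, t3, t4, t5⟩ : ∃ t : R, f * t = t ∧ t * f = t ∧ t * (w * f) = f ∧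
      (w * f) * t = f ∧ φ t = φ f := by
    have h1 : f * (f - w * f) = f - w * f := by rw [mul_sub, hff, ← mul_assoc, fw]
    have h2 : (f - w * f) * f = f - w * f := by rw [sub_mul, hff, mul_assoc, hff]
    have h3 : φ (f - w * f) = 0 := by rw [map_sub, map_mul, hφw, hφff, sub_self]
    obtain ⟨t, t1, t2, t3, t4, t5⟩ := corner_inv hff h1 h2 (hnil _ h1 h2 h3)
    rw [sub_sub_cancel] at t3 t4
    exact ⟨t, t1, t2, t3, t4, t5 φ h3⟩
  have wt : w * t = f := by
    rw [← t1, ← mul_assoc]; exact t4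
  set r : ℕ → R := fun j => p j - p j * c j * p j with hr
  set b : R := 1 - t * w with hb
  have wr : ∀ j < n, w * r j = 0 := by
    intro j hj
    rw [hr]
    calc w * (p j - p j * c j * p j) = w * p j - w * p j * c j * p j := by
          rw [mul_sub, ← mul_assoc, ← mul_assoc]
      _ = c j * p j - c j * p j * c j * p j := by rw [wp j hj]
      _ = 0 := by rw [cpc, sub_self]
  have r0 : ∀ j, n ≤ j → r j = 0 := by
    intro j hj
    rw [hr]
    change p j - p j * c j * p j = 0
    rw [hp0 j hj, mul_zero, sub_self]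
  have br : ∀ j, b * r j = r j := by
    intro j
    by_cases hj : j < n
    · rw [hb, sub_mul, one_mul, mul_assoc, wr j hj, mul_zero, sub_zero]
    · rw [r0 j (by omega), mul_zero]
  have rr : ∀ i j, r i * r j = if i = j then r i else 0 := by
    intro i j
    have h1 : r i * r j = p i * p j - p i * p j * c j * p j - p i * c i * (p i * p j) +
        p i * c i * (p i * p j) * c j * p j := by
      rw [hr]
      noncomm_ring
    rw [h1, hp]
    split_ifs with hij
    · subst hij
      rw [hr]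
      have h2 : p i * c i * p i * c i * p i = p i * c i * p i := by
        calc p i * c i * p i * c i * p i = p i * (c i * p i * c i) * p i := by
              simp only [mul_assoc]
          _ = _ := by rw [cpc]
      rw [h2]
      abel_nf
    · simp
  have bf : b * f = 0 := by
    rw [hb, sub_mul, one_mul, mul_assoc, t3, sub_self]
  have be : b * (1 - f) = b := by rw [mul_sub, mul_one, bf, sub_zero]
  have eb : (1 - f) * b = 1 - f := by
    rw [hb, mul_sub, mul_one, sub_mul, one_mul, ← mul_assoc f, t1, sub_self, sub_zero]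
  have hrs : ∑ j ∈ range n, r j = 1 - v * w := by
    rw [vw, hr, Finset.sum_sub_distrib, hps]
  have hvb : (1 - v * w) * b = b := by
    have h1 : v * w * (t * w) = v * w := by
      calc v * w * (t * w) = v * (w * t) * w := by simp only [mul_assoc]
        _ = v * w := by rw [wt, vf]
    rw [sub_mul, one_mul]
    nth_rewrite 2 [hb]
    rw [mul_sub, mul_one, h1, sub_self, sub_zero]
  refine ⟨r, c, b, v, w, fun j => rfl, c1, c2, c3, c4, rr, hrs, br, be, fw, vf, hφw, ?_, ?_, r0,
    hff⟩
  · rw [hv, map_sum]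
    calc ∑ j ∈ range n, φ (p j * q j) = ∑ j ∈ range n, φ f * h j := by
          apply Finset.sum_congr rfl
          intro j _
          rw [map_mul, hφp, hφq, ← mul_assoc, hcomm, mul_assoc, hhh, if_pos rfl]
      _ = φ f := by rw [← Finset.mul_sum, hsum, mul_one]
  · intro j
    rw [hr]
    change φ (p j - p j * c j * p j) = _
    rw [map_sub, map_mul, map_mul, c5, hφq, hφp]
    calc h j - h j * (φ f * h j) * h j = h j - h j * φ f * (h j * h j) := by
          simp only [mul_assoc]
      _ = h j - φ f * h j * h j := by rw [hhh, if_pos rfl, hcomm]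
      _ = (1 - φ f) * h j := by rw [mul_assoc, hhh, if_pos rfl, sub_mul, one_mul]

/-- **Self-adjoint cancellation.** -/
theorem cancel_dual [Algebra ℚ R] (τ : R →ₗ[ℚ] R) (hτ1 : τ 1 = 1)
    (hτm : ∀ x y, τ (x * y) = τ y * τ x) (hττ : ∀ x, τ (τ x) = x) (φ : R →+* S) (d : ℕ)
    {h : ℕ → S} {p : ℕ → R}
    (hp : ∀ i j, p i * p j = if i = j then p i else 0) (hps : ∑ j ∈ range (2 * d + 1), p j = 1)
    (hp0 : ∀ j, 2 * d + 1 ≤ j → p j = 0) (hφp : ∀ j, φ (p j) = h j)
    (hτp : ∀ j ≤ 2 * d, τ (p j) = p (2 * d - j)) {f : R} {q : ℕ → R}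
    (hq : ∀ i j, q i * q j = if i = j then q i else 0) (hqs : ∑ j ∈ range (2 * d + 1), q j = f)
    (hq0 : ∀ j, 2 * d + 1 ≤ j → q j = 0) (hφq : ∀ j, φ (q j) = φ f * h j)
    (hτq : ∀ j ≤ 2 * d, τ (q j) = q (2 * d - j))
    (hcomm : ∀ j, h j * φ f = φ f * h j)
    (hnil : ∀ x, f * x = x → x * f = x → φ x = 0 → IsNilpotent x) :
    ∃ g : ℕ → R, (∀ i j, g i * g j = if i = j then g i else 0) ∧
      ∑ j ∈ range (2 * d + 1), g j = 1 - f ∧
      (∀ j, 2 * d + 1 ≤ j → g j = 0) ∧ (∀ j, (1 - f) * g j = g j) ∧ (∀ j, g j * (1 - f) = g j) ∧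
      (∀ j, φ (g j) = (1 - φ f) * h j) ∧ ∀ j ≤ 2 * d, τ (g j) = g (2 * d - j) := by
  classical
  obtain ⟨r, c, b, v, w, hr, c1, c2, c3, c4, rr, hrs, br, be, fw, vf, hφw, hφv, hφr, r0, hff⟩ :=
    cancel_core φ (2 * d + 1) hp hps hp0 hφp hq hqs hq0 hφq hcomm hnil
  have hφff : φ f * φ f = φ f := by rw [← map_mul, hff]
  have hτf : τ f = f := by
    rw [← hqs, map_sum, ← Finset.sum_range_reflect (fun j => q j) (2 * d + 1)]
    apply Finset.sum_congr rfl
    intro j hj
    have := Finset.mem_range.1 hj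
    rw [hτq j (by omega)]
    exact congrArg q (by omega)
  -- the adjoint of `c j`
  have hτc : ∀ j ≤ 2 * d, τ (c j) = c (2 * d - j) := by
    intro j hj
    have e1 : τ (c j) * q (2 * d - j) = τ (c j) := by
      rw [← hτq j hj, ← hτm, c1]
    have e2 : q (2 * d - j) * τ (c j) = τ (c j) := by
      rw [← hτq j hj, ← hτm, c2]
    have e3 : (q (2 * d - j) * p (2 * d - j) * q (2 * d - j)) * τ (c j) = q (2 * d - j) := by
      have e4 : τ (c j * (q j * p j * q j)) = τ (q j) := by rw [c3]
      rw [hτm, hτm, hτm, hτq j hj, hτp j hj, ← mul_assoc] at e4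
      exact e4
    calc τ (c j) = q (2 * d - j) * τ (c j) := e2.symm
      _ = c (2 * d - j) * (q (2 * d - j) * p (2 * d - j) * q (2 * d - j)) * τ (c j) := by rw [c3]
      _ = c (2 * d - j) * ((q (2 * d - j) * p (2 * d - j) * q (2 * d - j)) * τ (c j)) := by
        rw [mul_assoc]
      _ = c (2 * d - j) := by rw [e3, c2]
  have hτr : ∀ j ≤ 2 * d, τ (r j) = r (2 * d - j) := by
    intro j hj
    rw [hr, hr, map_sub, hτm, hτm, hτp j hj, hτc j hj, mul_assoc]
  set Pi0 : R := 1 - v * w with hP
  have hPr : ∀ j, Pi0 * r j = r j := by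
    intro j
    by_cases hj : j < 2 * d + 1
    · rw [← hrs, Finset.sum_mul, Finset.sum_eq_single_of_mem j (Finset.mem_range.2 hj), rr,
        if_pos rfl]
      intro i _ hij
      rw [rr, if_neg hij]
    · rw [r0 j (by omega), mul_zero]
  have hrP : ∀ j, r j * Pi0 = r j := by
    intro j
    by_cases hj : j < 2 * d + 1
    · rw [← hrs, Finset.mul_sum, Finset.sum_eq_single_of_mem j (Finset.mem_range.2 hj), rr,
        if_pos rfl]
      intro i _ hij
      rw [rr, if_neg (Ne.symm hij)]
    · rw [r0 j (by omega), zero_mul]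
  have hPP : Pi0 * Pi0 = Pi0 := by
    nth_rewrite 2 [← hrs]
    rw [Finset.mul_sum, Finset.sum_congr rfl fun j _ => hPr j, hrs]
  have hτP : τ Pi0 = Pi0 := by
    rw [← hrs, map_sum, ← Finset.sum_range_reflect (fun j => r j) (2 * d + 1)]
    apply Finset.sum_congr rfl
    intro j hj
    have := Finset.mem_range.1 hj
    rw [hτr j (by omega)]
    exact congrArg r (by omega)
  have hbP : b * Pi0 = Pi0 := by
    rw [← hrs, Finset.mul_sum]
    exact Finset.sum_congr rfl fun j _ => br j
  have hee : (1 - f) * (1 - f) = 1 - f := by rw [mul_sub, mul_one, sub_mul, hff]; simp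
  -- the unipotent element
  set D : R := (1 - f) * Pi0 * (1 - f) - (1 - f) with hD
  have hD1 : D = -((1 - f) * v * (w * (1 - f))) := by
    rw [hD, hP]
    have h1 : (1 - f) * (1 - v * w) * (1 - f) =
        (1 - f) * (1 - f) - (1 - f) * v * (w * (1 - f)) := by noncomm_ring
    rw [h1, hee]
    abel
  have hDn : IsNilpotent D := by
    rw [hD1, isNilpotent_neg_iff]
    obtain ⟨m, hm⟩ := hnil (w * (1 - f) * ((1 - f) * v * f)) (by
      simp only [← mul_assoc, fw]) (by
      simp only [mul_assoc, hff]) (by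
      simp only [map_mul, map_sub, map_one, hφw]
      have h1 : φ f * (1 - φ f) = 0 := by rw [mul_sub, mul_one, hφff, sub_self]
      rw [h1, zero_mul])
    have h2 : w * (1 - f) * ((1 - f) * v * f) = w * (1 - f) * ((1 - f) * v) := by
      rw [mul_assoc (1 - f), vf]
    rw [h2] at hm
    refine ⟨m + 1, ?_⟩
    have h3 : ∀ m : ℕ, ((1 - f) * v * (w * (1 - f))) ^ (m + 1) =
        (1 - f) * v * (w * (1 - f) * ((1 - f) * v)) ^ m * (w * (1 - f)) := by
      intro m
      induction m with
      | zero => rw [zero_add, pow_one, pow_zero, mul_one]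
      | succ m ih =>
        rw [pow_succ, ih, pow_succ]
        simp only [mul_assoc]
    rw [h3, hm, mul_zero, zero_mul]
  have hτD : τ D = D := by
    rw [hD, map_sub, hτm, hτm, map_sub, hτ1, hτf, hτP, mul_assoc]
  have hφD : φ D = 0 := by
    rw [hD1, map_neg, map_mul, map_mul, map_mul, hφv, hφw, map_sub, map_one]
    have h1 : φ f * (1 - φ f) = 0 := by rw [mul_sub, mul_one, hφff, sub_self]
    rw [h1, mul_zero, neg_zero]
  have hfD : f * D = 0 := by
    have h1 : f * (1 - f) = 0 := by rw [mul_sub, mul_one, hff, sub_self]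
    rw [hD, mul_sub, ← mul_assoc, ← mul_assoc, h1, zero_mul, zero_mul, sub_self]
  obtain ⟨V, x, x', hVV, hV, hVi, hτV, hτVi⟩ :=
    Pool.Agent.W550.Dual.exists_unit_sqrt τ hτ1 hτm hDn hτD
  have hDe : D * (1 - f) = (1 - f) * Pi0 * (1 - f) - (1 - f) := by
    rw [hD, sub_mul ((1 - f) * Pi0 * (1 - f)) (1 - f) (1 - f), mul_assoc ((1 - f) * Pi0), hee]
  have hDe' : (1 - f) * D = (1 - f) * Pi0 * (1 - f) - (1 - f) := by
    rw [hD, mul_sub (1 - f) ((1 - f) * Pi0 * (1 - f)) (1 - f), ← mul_assoc (1 - f),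
      ← mul_assoc (1 - f), hee]
  have hfV : f * ((V⁻¹ : Rˣ) : R) = f := by
    rw [hVi, mul_add, mul_one, ← mul_assoc, hfD, zero_mul, add_zero]
  have hVf : ((V⁻¹ : Rˣ) : R) * f = f := by
    have h1 := congrArg τ hfV
    rw [hτm, hτVi, hτf] at h1
    exact h1
  have hfV' : f * (V : R) = f := by
    rw [hV, mul_add, mul_one, ← mul_assoc, hfD, zero_mul, add_zero]
  have hVf' : (V : R) * f = f := by
    have h1 := congrArg τ hfV'
    rw [hτm, hτV, hτf] at h1
    exact h1
  set U : R := ((V⁻¹ : Rˣ) : R) with hU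
  have hUe : U * (1 - f) = (1 - f) * U := by rw [mul_sub, sub_mul, hVf, hfV, mul_one, one_mul]
  have hUU : U * U * ((1 - f) * Pi0 * (1 - f)) = 1 - f := by
    have h1 : (1 - f) * Pi0 * (1 - f) = (V : R) * V * (1 - f) := by
      rw [hVV, add_mul, one_mul, hDe]
      abel
    rw [h1]
    calc U * U * ((V : R) * V * (1 - f)) = U * (U * V) * V * (1 - f) := by simp only [mul_assoc]
      _ = 1 - f := by rw [hU, Units.inv_mul, mul_one, Units.inv_mul, one_mul]
  have hUU' : (1 - f) * Pi0 * (1 - f) * (U * U) = 1 - f := by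
    have h1 : (1 - f) * Pi0 * (1 - f) = (1 - f) * (V * V) := by
      rw [hVV, mul_add, mul_one, hDe']
      abel
    rw [h1]
    calc (1 - f) * ((V : R) * V) * (U * U) = (1 - f) * (V * (V * U) * U) := by
          simp only [mul_assoc]
      _ = 1 - f := by rw [hU, Units.mul_inv, mul_one, Units.mul_inv, mul_one]
  -- the key identity
  have hkey : Pi0 * (1 - f) * (U * U) * ((1 - f) * Pi0) = Pi0 := by
    have h1 : (1 - f) * Pi0 * (Pi0 * (1 - f) * (U * U) * ((1 - f) * Pi0)) = (1 - f) * Pi0 := by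
      calc (1 - f) * Pi0 * (Pi0 * (1 - f) * (U * U) * ((1 - f) * Pi0)) =
          (1 - f) * (Pi0 * Pi0) * (1 - f) * (U * U) * ((1 - f) * Pi0) := by simp only [mul_assoc]
        _ = (1 - f) * ((1 - f) * Pi0) := by rw [hPP, hUU']
        _ = (1 - f) * Pi0 := by rw [← mul_assoc, hee]
    have h2 : b * ((1 - f) * Pi0) = Pi0 := by rw [← mul_assoc, be, hbP]
    calc Pi0 * (1 - f) * (U * U) * ((1 - f) * Pi0) =
        Pi0 * (Pi0 * (1 - f) * (U * U) * ((1 - f) * Pi0)) := by
          simp only [← mul_assoc, hPP]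
      _ = b * ((1 - f) * Pi0) * (Pi0 * (1 - f) * (U * U) * ((1 - f) * Pi0)) := by rw [h2]
      _ = b * ((1 - f) * Pi0 * (Pi0 * (1 - f) * (U * U) * ((1 - f) * Pi0))) := by
        simp only [mul_assoc]
      _ = Pi0 := by rw [h1, h2]
  refine ⟨fun j => U * (1 - f) * r j * ((1 - f) * U), fun i j => ?_, ?_, fun j hj => ?_,
    fun j => ?_, fun j => ?_, fun j => ?_, fun j hj => ?_⟩
  · have h1 : r i * ((1 - f) * U * (U * (1 - f))) * r j = r i * r j := by
      calc r i * ((1 - f) * U * (U * (1 - f))) * r j =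
          r i * Pi0 * ((1 - f) * U * (U * (1 - f))) * (Pi0 * r j) := by rw [hrP, hPr]
        _ = r i * (Pi0 * (1 - f) * (U * U) * ((1 - f) * Pi0)) * r j := by simp only [mul_assoc]
        _ = r i * r j := by rw [hkey, hrP]
    calc U * (1 - f) * r i * ((1 - f) * U) * (U * (1 - f) * r j * ((1 - f) * U)) =
        U * (1 - f) * (r i * ((1 - f) * U * (U * (1 - f))) * r j) * ((1 - f) * U) := by
          simp only [mul_assoc]
      _ = _ := by
        rw [h1, rr]
        split_ifs
        · rfl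
        · rw [mul_zero, zero_mul]
  · rw [← Finset.sum_mul, ← Finset.mul_sum, hrs]
    calc U * (1 - f) * Pi0 * ((1 - f) * U) = U * ((1 - f) * Pi0 * (1 - f)) * U := by
          simp only [mul_assoc]
      _ = U * ((V : R) * V * (1 - f)) * U := by
          have h1 : (1 - f) * Pi0 * (1 - f) = (V : R) * V * (1 - f) := by
            rw [hVV, add_mul, one_mul, hDe]
            abel
          rw [h1]
      _ = (U * V) * V * ((1 - f) * U) := by simp only [mul_assoc]
      _ = V * (U * (1 - f)) := by rw [hU, Units.inv_mul, one_mul, ← hU, hUe]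
      _ = 1 - f := by rw [← mul_assoc, hU, Units.mul_inv, one_mul]
  · change U * (1 - f) * r j * ((1 - f) * U) = 0
    rw [r0 j hj, mul_zero, zero_mul]
  · change (1 - f) * (U * (1 - f) * r j * ((1 - f) * U)) = U * (1 - f) * r j * ((1 - f) * U)
    calc (1 - f) * (U * (1 - f) * r j * ((1 - f) * U)) =
        (1 - f) * U * (1 - f) * r j * ((1 - f) * U) := by simp only [mul_assoc]
      _ = U * ((1 - f) * (1 - f)) * r j * ((1 - f) * U) := by rw [← hUe]; simp only [mul_assoc]
      _ = _ := by rw [hee]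
  · change U * (1 - f) * r j * ((1 - f) * U) * (1 - f) = U * (1 - f) * r j * ((1 - f) * U)
    calc U * (1 - f) * r j * ((1 - f) * U) * (1 - f) =
        U * (1 - f) * r j * ((1 - f) * (U * (1 - f))) := by simp only [mul_assoc]
      _ = _ := by rw [hUe, ← mul_assoc (1 - f), hee]
  · have h2 : φ U = 1 := by
      rw [hVi, map_add, map_mul, hφD, zero_mul, add_zero, map_one]
    have h3 : (1 - φ f) * (1 - φ f) = 1 - φ f := by
      rw [mul_sub, mul_one, sub_mul, hφff]; simp
    have h4 : h j * (1 - φ f) = (1 - φ f) * h j := by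
      rw [mul_sub, mul_one, sub_mul, one_mul, hcomm]
    change φ (U * (1 - f) * r j * ((1 - f) * U)) = _
    simp only [map_mul, map_sub, map_one, h2, one_mul, mul_one, hφr]
    rw [← mul_assoc (1 - φ f), h3, mul_assoc, h4, ← mul_assoc, h3]
  · change τ (U * (1 - f) * r j * ((1 - f) * U)) = U * (1 - f) * r (2 * d - j) * ((1 - f) * U)
    rw [hτm, hτm, hτm, hτm, hτVi, map_sub, hτ1, hτf, hτr j hj]
    simp only [mul_assoc]

end Pool.Agent.W543.CK
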