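import Pool.Agent.W543.CK.CancelDual

/-!
# Self-adjoint systems of orthogonal idempotents in a corner
-/

open Finset

namespace Pool.Agent.W543.CK

variable {R S : Type*} [Ring R] [Ring S]

/-- Making a system of idempotents of a corner self-adjoint. -/
theorem selfAdjoint_corner [Algebra ℚ R] (τ : R →ₗ[ℚ] R) (hτ1 : τ 1 = 1)
    (hτm : ∀ x y, τ (x * y) = τ y * τ x) (hττ : ∀ x, τ (τ x) = x) (φ : R →+* S) {d : ℕ}
    {f : R} {q : ℕ → R} (hq : ∀ i j, q i * q j = if i = j then q i else 0)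
    (hqs : ∑ j ∈ range (2 * d + 1), q j = f) (hq0 : ∀ j, 2 * d + 1 ≤ j → q j = 0) (hτf : τ f = f)
    (hdef : φ (∑ j ∈ range (2 * d + 1), q j * τ (q (2 * d - j))) = φ f)
    (hnil : ∀ x, f * x = x → x * f = x → φ x = 0 → IsNilpotent x) :
    ∃ g : ℕ → R, (∀ i j, g i * g j = if i = j then g i else 0) ∧
      ∑ j ∈ range (2 * d + 1), g j = f ∧ (∀ j, 2 * d + 1 ≤ j → g j = 0) ∧
      (∀ j, φ (g j) = φ (q j)) ∧ ∀ j ≤ 2 * d, τ (g j) = g (2 * d - j) := by
  classical
  have hfq : ∀ j, f * q j = q j := by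
    intro j
    by_cases hj : j < 2 * d + 1
    · rw [← hqs, Finset.sum_mul, Finset.sum_eq_single_of_mem j (Finset.mem_range.2 hj), hq,
        if_pos rfl]
      intro i _ hij
      rw [hq, if_neg hij]
    · rw [hq0 j (by omega), mul_zero]
  have hqf : ∀ j, q j * f = q j := by
    intro j
    by_cases hj : j < 2 * d + 1
    · rw [← hqs, Finset.mul_sum, Finset.sum_eq_single_of_mem j (Finset.mem_range.2 hj), hq,
        if_pos rfl]
      intro i _ hij
      rw [hq, if_neg (Ne.symm hij)]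
    · rw [hq0 j (by omega), zero_mul]
  have hff : f * f = f := by
    nth_rewrite 2 [← hqs]
    rw [Finset.mul_sum, Finset.sum_congr rfl fun j _ => hfq j, hqs]
  have hfτq : ∀ j, f * τ (q j) = τ (q j) := by
    intro j
    nth_rewrite 1 [← hτf]
    rw [← hτm, hqf]
  have hτqf : ∀ j, τ (q j) * f = τ (q j) := by
    intro j
    nth_rewrite 1 [← hτf]
    rw [← hτm, hfq]
  set u : R := ∑ i ∈ range (2 * d + 1), q i * τ (q (2 * d - i)) with hu
  have hτu : τ u = u := by
    have h1 : τ u = ∑ i ∈ range (2 * d + 1), q (2 * d - i) * τ (q i) := by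
      rw [hu, map_sum]
      exact Finset.sum_congr rfl fun i _ => by rw [hτm, hττ]
    have h2 : ∑ i ∈ range (2 * d + 1), q (2 * d - i) * τ (q i) =
        ∑ i ∈ range (2 * d + 1), (fun j => q j * τ (q (2 * d - j))) (2 * d + 1 - 1 - i) := by
      refine Finset.sum_congr rfl fun i hi => ?_
      rw [Finset.mem_range] at hi
      beta_reduce
      rw [show 2 * d + 1 - 1 - i = 2 * d - i by omega, show 2 * d - (2 * d - i) = i by omega]
    rw [h1, h2, Finset.sum_range_reflect (fun j => q j * τ (q (2 * d - j))) (2 * d + 1)]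
  have hfu : f * u = u := by
    rw [hu, Finset.mul_sum]
    exact Finset.sum_congr rfl fun i _ => by rw [← mul_assoc, hfq]
  have huf : u * f = u := by
    rw [hu, Finset.sum_mul]
    exact Finset.sum_congr rfl fun i _ => by rw [mul_assoc, hτqf]
  set D : R := u - f with hD
  have hfD : f * D = D := by rw [hD, mul_sub, hfu, hff]
  have hDf : D * f = D := by rw [hD, sub_mul, huf, hff]
  have hφD : φ D = 0 := by rw [hD, map_sub, hdef, sub_self]
  have hDn : IsNilpotent D := hnil D hfD hDf hφD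
  obtain ⟨V, w, w', hVV, hV, hVi, hτV, hτVi⟩ :=
    Pool.Agent.W550.Dual.exists_unit_sqrt τ hτ1 hτm hDn (by rw [hD, map_sub, hτu, hτf])
  have hcV : f * (V : R) = (V : R) * f := by
    have h1 : (1 - f) * (V : R) = 1 - f := by
      rw [hV, mul_add, mul_one, ← mul_assoc, sub_mul, one_mul, hfD, sub_self, zero_mul, add_zero]
    have h2 := congrArg τ h1
    rw [hτm, map_sub, hτ1, hτf, hτV] at h2
    rw [sub_mul, one_mul] at h1
    rw [mul_sub, mul_one] at h2
    have h3 : (V : R) - f * V = V - V * f := by rw [h1, h2]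
    exact sub_right_inj.1 h3
  have hφV : φ (V : R) = 1 := by rw [hV, map_add, map_one, map_mul, hφD, zero_mul, add_zero]
  have hφVi : φ ((V⁻¹ : Rˣ) : R) = 1 := by
    rw [hVi, map_add, map_one, map_mul, hφD, zero_mul, add_zero]
  have hfVV : f * ((V : R) * V) = u := by
    rw [hVV, mul_add, mul_one, hfD, hD]
    abel
  have hVVf : ((V : R) * V) * f = u := by
    rw [hVV, add_mul, one_mul, hDf, hD]
    abel
  refine ⟨fun j => ((V⁻¹ : Rˣ) : R) * q j * V, fun i j => ?_, ?_, fun j hj => ?_, fun j => ?_,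
    fun i hi => ?_⟩
  · calc ((V⁻¹ : Rˣ) : R) * q i * V * (((V⁻¹ : Rˣ) : R) * q j * V) =
        ((V⁻¹ : Rˣ) : R) * q i * ((V : R) * ((V⁻¹ : Rˣ) : R)) * q j * V := by
          simp only [mul_assoc]
      _ = ((V⁻¹ : Rˣ) : R) * (q i * q j) * V := by
        rw [Units.mul_inv, mul_one]
        simp only [mul_assoc]
      _ = _ := by
        rw [hq]
        split_ifs
        · rfl
        · rw [mul_zero, zero_mul]
  · rw [← Finset.sum_mul, ← Finset.mul_sum, hqs, mul_assoc, hcV, ← mul_assoc, Units.inv_mul,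
      one_mul]
  · change ((V⁻¹ : Rˣ) : R) * q j * V = 0
    rw [hq0 j hj, mul_zero, zero_mul]
  · change φ (((V⁻¹ : Rˣ) : R) * q j * V) = φ (q j)
    rw [map_mul, map_mul, hφV, hφVi, one_mul, mul_one]
  · change τ (((V⁻¹ : Rˣ) : R) * q i * V) = ((V⁻¹ : Rˣ) : R) * q (2 * d - i) * V
    have h1 : q (2 * d - i) * (V * V) = V * V * τ (q i) := by
      have h2 : q (2 * d - i) * ((V : R) * V) = q (2 * d - i) * τ (q i) := by
        rw [← hqf (2 * d - i), mul_assoc, hfVV, hqf, hu, Finset.mul_sum,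
          Finset.sum_eq_single (2 * d - i)]
        · rw [← mul_assoc, hq, if_pos rfl, show 2 * d - (2 * d - i) = i by omega]
        · intro j _ hj
          rw [← mul_assoc, hq, if_neg (Ne.symm hj), zero_mul]
        · intro h
          exact absurd (Finset.mem_range.2 (by omega)) h
      have h3 : (V : R) * V * τ (q i) = q (2 * d - i) * τ (q i) := by
        have h4 : ∀ j ∈ range (2 * d + 1), q j * τ (q (2 * d - j)) * τ (q i) =
            if j = 2 * d - i then q j * τ (q i) else 0 := by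
          intro j hj
          rw [Finset.mem_range] at hj
          rw [mul_assoc, ← hτm, hq]
          split_ifs with h5 h6 h6
          · rfl
          · omega
          · omega
          · rw [map_zero, mul_zero]
        rw [← hfτq i, ← mul_assoc, hVVf, hu, Finset.sum_mul, Finset.sum_congr rfl h4,
          Finset.sum_ite_eq', if_pos (Finset.mem_range.2 (by omega)), hfτq]
      rw [h2, h3]
    rw [hτm, hτm, hτV, hτVi]
    have h2 : ((V⁻¹ : Rˣ) : R) * (q (2 * d - i) * (V * V)) * ((V⁻¹ : Rˣ) : R) =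
        ((V⁻¹ : Rˣ) : R) * (V * V * τ (q i)) * ((V⁻¹ : Rˣ) : R) := by rw [h1]
    have h3 : ((V⁻¹ : Rˣ) : R) * (q (2 * d - i) * (V * V)) * ((V⁻¹ : Rˣ) : R) =
        ((V⁻¹ : Rˣ) : R) * q (2 * d - i) * V := by
      calc _ = ((V⁻¹ : Rˣ) : R) * q (2 * d - i) * V * ((V : R) * ((V⁻¹ : Rˣ) : R)) := by
            simp only [mul_assoc]
        _ = _ := by rw [Units.mul_inv, mul_one]
    have h4 : ((V⁻¹ : Rˣ) : R) * (V * V * τ (q i)) * ((V⁻¹ : Rˣ) : R) =
        V * (τ (q i) * ((V⁻¹ : Rˣ) : R)) := by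
      calc _ = (((V⁻¹ : Rˣ) : R) * (V : R)) * (V * (τ (q i) * ((V⁻¹ : Rˣ) : R))) := by
            simp only [mul_assoc]
        _ = _ := by rw [Units.inv_mul, one_mul]
    rw [← h4, ← h2, h3]

end Pool.Agent.W543.CK
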