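import Pool.Agent.W550.Murre.Defs

/-!
# Correspondences which are algebraic modulo rational equivalence: definitions
-/

open CategoryTheory AlgebraicGeometry

universe u v w

namespace Pool.Agent.W543.CK

open Pool.Agent.H914 Pool.Agent.H914.VarClass Pool.Agent.H914.VarClass.Obj Pool.Agent.W492.BB
  Pool.Agent.W550.Corr Pool.Agent.W550.Murre

variable {k : Type u} [Field k] {𝒱 : VarClass k} {C : TheoryData.{u, v, 0} 𝒱 ℚ} {K : Type w}
  [Field K] {X : 𝒱.Obj}

/-- The composite of `n` copies of the correspondence `z` (the diagonal if `n = 0`). -/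
noncomputable def cpow (z : C.A (X.prod X)) : ℕ → C.A (X.prod X)
  | 0 => dg C X
  | n + 1 => C.comp (cpow z n) z

/-- The value `∑ a_n z^n` of the polynomial `g = ∑ a_n t^n` at the correspondence `z`, where `z^n` is
the composite of `n` copies of `z`. -/
noncomputable def cEval (g : Polynomial ℚ) (z : C.A (X.prod X)) : C.A (X.prod X) :=
  g.sum fun n a => a • cpow z n

/-- The correspondence `z` is algebraic over the rational numbers: `P(z) = 0` in the Chow group of
`X × X`, for some nonzero polynomial `P` with rational coefficients. -/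
def IsAlgCorr (z : C.A (X.prod X)) : Prop := ∃ P : Polynomial ℚ, P ≠ 0 ∧ cEval P z = 0

/-- `z` acts on `H^l(X)` as the multiplication by `l`, for all `l`. -/
def IsWeight (H : WeilTheoryData.{u, v, w} C K) (z : C.A (X.prod X)) : Prop :=
  ∀ (l : ℤ) (a : H.A X), H.Deg l a → H.act (H.cl z) a = (l : K) • a

/-- `z` separates the degrees: for `i ≠ j` some polynomial in `z` with rational coefficients acts as
the identity on `H^i(X)` and as zero on `H^j(X)`. -/
def SepDegrees (H : WeilTheoryData.{u, v, w} C K) (z : C.A (X.prod X)) : Prop :=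
  ∀ i j : ℕ, i ≤ 2 * X.dim → j ≤ 2 * X.dim → i ≠ j → ∃ g : Polynomial ℚ,
    (∀ a : H.A X, H.Deg i a → H.act (H.cl (cEval g z)) a = a) ∧
    ∀ a : H.A X, H.Deg j a → H.act (H.cl (cEval g z)) a = 0

/-- `b` acts as the identity on `H^j(X)` and as zero on `H^l(X)` for `l ≠ j`. -/
def ActsAsProj (H : WeilTheoryData.{u, v, w} C K) (j : ℕ) (b : C.A (X.prod X)) : Prop :=
  ∀ (l : ℤ) (a : H.A X), H.Deg l a → H.act (H.cl b) a = if l = j then a else 0

/-- `B` is an algebra of correspondences of degree zero of `X` modulo rational equivalence: a space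
which contains the diagonal and is closed under composition. -/
def IsCorrAlgebra (B : Submodule ℚ (C.A (X.prod X))) : Prop :=
  (∀ b ∈ B, C.Deg X.dim b) ∧ dg C X ∈ B ∧ ∀ b ∈ B, ∀ c ∈ B, C.comp b c ∈ B

/-- Some finite-dimensional algebra of correspondences of degree zero of `X` modulo rational
equivalence contains, for every `j`, a correspondence which acts as the identity on `H^j(X)` and as
zero on `H^l(X)` for `l ≠ j`. -/
def HasFinAlgebra (H : WeilTheoryData.{u, v, w} C K) (X : 𝒱.Obj) : Prop :=
  ∃ B : Submodule ℚ (C.A (X.prod X)), Module.Finite ℚ B ∧ IsCorrAlgebra B ∧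
    ∀ j : ℕ, j ≤ 2 * X.dim → ∃ b ∈ B, ActsAsProj H j b

/-- Some correspondence of degree zero of `X` which is algebraic acts on `H^l(X)` as the
multiplication by `l`, for all `l`. -/
def HasAlgWeight (H : WeilTheoryData.{u, v, w} C K) (X : 𝒱.Obj) : Prop :=
  ∃ z : C.A (X.prod X), C.Deg X.dim z ∧ IsAlgCorr z ∧ IsWeight H z

/-- Some correspondence of degree zero of `X` which is algebraic separates the degrees. -/
def HasAlgSep (H : WeilTheoryData.{u, v, w} C K) (X : 𝒱.Obj) : Prop :=
  ∃ z : C.A (X.prod X), C.Deg X.dim z ∧ IsAlgCorr z ∧ SepDegrees H z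

/-- `X` is a retract of `Y`, by correspondences `a` from `X` to `Y` and `b` from `Y` to `X` of degree
zero, and for some correspondence `w` which acts on `H^l(Y)` as the multiplication by `l`, for all
`l` (and need not be algebraic), the composite of `a`, `w` and `b` is algebraic. -/
def AlgRetract (H : WeilTheoryData.{u, v, w} C K) (X Y : 𝒱.Obj) : Prop :=
  ∃ (a : C.A (X.prod Y)) (b : C.A (Y.prod X)) (w : C.A (Y.prod Y)), C.Deg X.dim a ∧
    C.Deg Y.dim b ∧ C.comp a b = dg C X ∧ C.Deg Y.dim w ∧ IsWeight H w ∧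
    IsAlgCorr (C.comp (C.comp a w) b)

end Pool.Agent.W543.CK
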