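import Mathlib

/-!
# Idempotents from an algebraic element
-/

open Polynomial Finset

namespace Pool.Agent.W543.CK

variable {R : Type*} [Ring R] [Algebra ℚ R]

/-- Idempotent polynomials in an algebraic element. -/
lemma exists_idem (N : ℕ) {z : R} {P : ℚ[X]} (hP0 : P ≠ 0) (hP : aeval z P = 0)
    (hroot : ∀ i < N, P.eval (i : ℚ) = 0) :
    ∃ g : ℕ → ℚ[X], (∀ i j, i < N → j < N →
      aeval z (g i) * aeval z (g j) = if i = j then aeval z (g i) else 0) ∧
      ∀ i l, i < N → l < N → (g i).eval (l : ℚ) = if l = i then 1 else 0 := by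
  choose Q hQ hnd using fun i : ℕ => exists_eq_pow_rootMultiplicity_mul_and_not_dvd P hP0 (i : ℚ)
  have hirr : ∀ i : ℕ, Irreducible (X - C (i : ℚ)) := fun i => irreducible_X_sub_C _
  have hcop : ∀ i : ℕ, IsCoprime ((X - C (i : ℚ)) ^ rootMultiplicity (i : ℚ) P) (Q i) := by
    intro i
    apply IsCoprime.pow_left
    rw [(hirr i).coprime_iff_not_dvd]
    exact hnd i
  choose a b hab using hcop
  have hpos : ∀ i < N, 0 < rootMultiplicity (i : ℚ) P := fun i hi =>
    (rootMultiplicity_pos hP0).2 (hroot i hi)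
  have hdiv : ∀ i j : ℕ, i ≠ j → (X - C (i : ℚ)) ^ rootMultiplicity (i : ℚ) P ∣ Q j := by
    intro i j hij
    have h1 : (X - C (i : ℚ)) ^ rootMultiplicity (i : ℚ) P ∣
        (X - C (j : ℚ)) ^ rootMultiplicity (j : ℚ) P * Q j := by
      rw [← hQ j]
      exact pow_rootMultiplicity_dvd P _
    refine IsCoprime.dvd_of_dvd_mul_left ?_ h1
    apply IsCoprime.pow
    apply isCoprime_X_sub_C_of_isUnit_sub
    rw [isUnit_iff_ne_zero, sub_ne_zero]
    exact_mod_cast hij
  have hzero : ∀ G : ℚ[X], P ∣ G → aeval z G = 0 := by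
    rintro G ⟨c, rfl⟩
    rw [map_mul, hP, zero_mul]
  refine ⟨fun i => b i * Q i, ?_, ?_⟩
  · intro i j hi hj
    rw [← map_mul]
    split_ifs with hij
    · subst hij
      have h1 : b i * Q i * (b i * Q i) = b i * Q i - P * (a i * b i) := by
        conv_rhs => rw [hQ i]
        have h2 := hab i
        linear_combination (b i * Q i) * h2
      rw [h1, map_sub, hzero _ (Dvd.intro _ rfl), sub_zero]
    · apply hzero
      obtain ⟨c, hc⟩ := hdiv i j hij
      refine ⟨b i * b j * c, ?_⟩
      change b i * Q i * (b j * Q j) = P * (b i * b j * c)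
      rw [hc]
      conv_rhs => rw [hQ i]
      ring
  · intro i l hi hl
    split_ifs with hli
    · subst hli
      have h2 := congrArg (fun p => p.eval (l : ℚ)) (hab l)
      simp only [eval_add, eval_mul, eval_pow, eval_sub, eval_X, eval_C, sub_self, eval_one] at h2
      rw [zero_pow (hpos l hi).ne', mul_zero, zero_add] at h2
      rw [eval_mul]
      exact h2
    · have h3 : (X - C (l : ℚ)) ∣ Q i :=
        (dvd_pow_self _ (hpos l hl).ne').trans (hdiv l i hli)
      rw [eval_mul, dvd_iff_isRoot.1 h3, mul_zero]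

/-- A complete system of orthogonal idempotents in the algebra generated by an algebraic
element. -/
lemma exists_system (N : ℕ) (hN : 0 < N) {z : R} {P : ℚ[X]} (hP0 : P ≠ 0) (hP : aeval z P = 0) :
    ∃ g : ℕ → ℚ[X], (∀ i j, aeval z (g i) * aeval z (g j) = if i = j then aeval z (g i) else 0) ∧
      ∑ j ∈ range N, aeval z (g j) = 1 ∧ (∀ j, N ≤ j → g j = 0) ∧
      ∀ j l, l < N → (g j).eval (l : ℚ) = if l = j then 1 else 0 := by
  classical
  obtain ⟨g, hg1, hg2⟩ := exists_idem N (z := z)
    (P := P * ∏ i ∈ range N, (X - C (i : ℚ)))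
    (mul_ne_zero hP0 (Finset.prod_ne_zero_iff.2 fun i _ => X_sub_C_ne_zero _))
    (by rw [map_mul, hP, zero_mul])
    (fun i hi => by
      rw [eval_mul, eval_prod, Finset.prod_eq_zero (Finset.mem_range.2 hi) (by simp), mul_zero])
  set ρ : ℚ[X] := 1 - ∑ i ∈ range N, g i with hρ
  have hρ1 : ∀ i < N, aeval z ρ * aeval z (g i) = 0 := by
    intro i hi
    rw [hρ, map_sub, map_one, map_sum, sub_mul, one_mul, Finset.sum_mul,
      Finset.sum_eq_single_of_mem i (Finset.mem_range.2 hi), hg1 i i hi hi, if_pos rfl, sub_self]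
    intro j hj hji
    rw [hg1 j i (Finset.mem_range.1 hj) hi, if_neg hji]
  have hρ2 : ∀ i < N, aeval z (g i) * aeval z ρ = 0 := by
    intro i hi
    rw [hρ, map_sub, map_one, map_sum, mul_sub, mul_one, Finset.mul_sum,
      Finset.sum_eq_single_of_mem i (Finset.mem_range.2 hi), hg1 i i hi hi, if_pos rfl, sub_self]
    intro j hj hji
    rw [hg1 i j hi (Finset.mem_range.1 hj), if_neg (Ne.symm hji)]
  have hρ3 : aeval z ρ * aeval z ρ = aeval z ρ := by
    have h1 : aeval z ρ * aeval z (∑ i ∈ range N, g i) = 0 := by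
      rw [map_sum, Finset.mul_sum]
      exact Finset.sum_eq_zero fun i hi => hρ1 i (Finset.mem_range.1 hi)
    have h2 : aeval z ρ = 1 - aeval z (∑ i ∈ range N, g i) := by rw [hρ, map_sub, map_one]
    nth_rewrite 2 [h2]
    rw [mul_sub, h1, mul_one, sub_zero]
  have hρ4 : ∀ l < N, ρ.eval (l : ℚ) = 0 := by
    intro l hl
    rw [hρ, eval_sub, eval_one, eval_finset_sum,
      Finset.sum_eq_single_of_mem l (Finset.mem_range.2 hl), hg2 l l hl hl, if_pos rfl, sub_self]
    intro j hj hji
    rw [hg2 j l (Finset.mem_range.1 hj) hl, if_neg (Ne.symm hji)]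
  refine ⟨fun j => if j < N then (if j = 0 then g 0 + ρ else g j) else 0, ?_, ?_, ?_, ?_⟩
  · intro i j
    by_cases hi : i < N
    · by_cases hj : j < N
      · by_cases hi0 : i = 0
        · subst hi0
          by_cases hj0 : j = 0
          · subst hj0
            simp only [if_pos hN, if_true, map_add, mul_add, add_mul, hρ1 0 hN, hρ2 0 hN, hρ3,
              hg1 0 0 hN hN]
            abel
          · simp only [if_pos hN, if_pos hj, if_true, if_neg hj0, if_neg (Ne.symm hj0), map_add,
              add_mul, hρ1 j hj, hg1 0 j hN hj, add_zero]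
        · by_cases hj0 : j = 0
          · subst hj0
            simp only [if_pos hN, if_pos hi, if_true, if_neg hi0, map_add,
              mul_add, hρ2 i hi, hg1 i 0 hi hN, add_zero]
          · simp only [if_pos hi, if_pos hj, if_neg hi0, if_neg hj0, hg1 i j hi hj]
      · have hij : i ≠ j := by omega
        simp only [if_neg hj, map_zero, mul_zero, if_neg hij]
    · simp only [if_neg hi, map_zero, zero_mul, ite_self]
  · have h1 : ∀ j ∈ range N, aeval z (if j < N then (if j = 0 then g 0 + ρ else g j) else 0) =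
        aeval z (g j) + if j = 0 then aeval z ρ else 0 := by
      intro j hj
      rw [if_pos (Finset.mem_range.1 hj)]
      split_ifs with h0
      · subst h0; rw [map_add]
      · rw [add_zero]
    rw [Finset.sum_congr rfl h1, Finset.sum_add_distrib, Finset.sum_ite_eq' (range N) 0,
      if_pos (Finset.mem_range.2 hN), hρ, map_sub, map_one, map_sum]
    abel
  · intro j hj
    exact if_neg (by omega)
  · intro j l hl
    by_cases hj : j < N
    · by_cases hj0 : j = 0
      · subst hj0
        simp only [if_pos hN, if_true, eval_add, hρ4 l hl, hg2 0 l hN hl, add_zero]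
      · simp only [if_pos hj, if_neg hj0, hg2 j l hj hl]
    · have hlj : l ≠ j := by omega
      simp only [if_neg hj, eval_zero, if_neg hlj]

/-- Polynomials in an algebraic element are algebraic. -/
lemma exists_poly_comp {z : R} {P : ℚ[X]} (hP0 : P ≠ 0) (hP : aeval z P = 0) (G : ℚ[X]) :
    ∃ P' : ℚ[X], P' ≠ 0 ∧ aeval (aeval z G) P' = 0 := by
  have hfin : Module.Finite ℚ (AdjoinRoot P) := (AdjoinRoot.powerBasis hP0).finite
  have hint : IsIntegral ℚ (AdjoinRoot.mk P G) := Algebra.IsIntegral.isIntegral _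
  refine ⟨minpoly ℚ (AdjoinRoot.mk P G), minpoly.ne_zero hint, ?_⟩
  have h1 := minpoly.aeval ℚ (AdjoinRoot.mk P G)
  have h2 : aeval (AdjoinRoot.mk P G) (minpoly ℚ (AdjoinRoot.mk P G)) =
      AdjoinRoot.mk P ((minpoly ℚ (AdjoinRoot.mk P G)).comp G) := by
    have h3 := Polynomial.aeval_algHom_apply (AdjoinRoot.mkₐ P) G
      (minpoly ℚ (AdjoinRoot.mk P G))
    have h4 : aeval G (minpoly ℚ (AdjoinRoot.mk P G)) = (minpoly ℚ (AdjoinRoot.mk P G)).comp G :=
      rfl
    rw [h4] at h3
    exact h3
  rw [h2, AdjoinRoot.mk_eq_zero] at h1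
  rw [← aeval_comp]
  obtain ⟨c, hc⟩ := h1
  rw [hc, map_mul, hP, zero_mul]

end Pool.Agent.W543.CK
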