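import Pool.Agent.W543.CK.Defs
import Pool.Agent.W543.CK.Ring
import Pool.Agent.W550.Murre.Final

/-!
# Chow-Kunneth decompositions and algebraic correspondences
-/

open CategoryTheory AlgebraicGeometry

universe u v w

namespace Pool.Agent.W543.CK

open Pool.Agent.H914 Pool.Agent.H914.VarClass Pool.Agent.H914.VarClass.Obj Pool.Agent.W492.BB
  Pool.Agent.W550.Corr Pool.Agent.W550.Murre

variable {k : Type u} [Field k] {𝒱 : VarClass k} {C : TheoryData.{u, v, 0} 𝒱 ℚ} {K : Type w}
  [Field K] {H : WeilTheoryData.{u, v, w} C K} [hC : IsChow C] [hI : HasIso C]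
  {X : 𝒱.Obj}

/-- The ring structure on the correspondences of a Chow theory. -/
noncomputable local instance instE (C : TheoryData.{u, v, 0} 𝒱 ℚ) [IsChow C] [HasIso C]
    (X : 𝒱.Obj) : Ring (EndC C X) := endRing C X

noncomputable local instance instM (C : TheoryData.{u, v, 0} 𝒱 ℚ) [IsChow C] [HasIso C]
    (X : 𝒱.Obj) : Module ℚ (EndC C X) := inferInstanceAs (Module ℚ (C.A (X.prod X)))

/-- The element of the ring of correspondences. -/
def toE (x : C.A (X.prod X)) : EndC C X := x

/-- The underlying correspondence. -/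
def ofE (x : EndC C X) : C.A (X.prod X) := x

noncomputable local instance instA (C : TheoryData.{u, v, 0} 𝒱 ℚ) [IsChow C] [HasIso C]
    (X : 𝒱.Obj) : Algebra ℚ (EndC C X) :=
  Algebra.ofModule
    (fun r x y => LinearMap.congr_fun (map_smul (compL C) r (ofE x)) (ofE y))
    (fun r x y => map_smul (compL C (ofE x)) r (ofE y))

lemma ofE_mul (x y : EndC C X) : ofE (x * y) = C.comp (ofE x) (ofE y) := rfl
lemma ofE_add (x y : EndC C X) : ofE (x + y) = ofE x + ofE y := rfl
lemma ofE_smul (r : ℚ) (x : EndC C X) : ofE (r • x) = r • ofE x := rfl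
lemma ofE_zero : ofE (0 : EndC C X) = 0 := rfl
lemma ofE_one : ofE (1 : EndC C X) = dg C X := rfl
lemma ofE_toE (x : C.A (X.prod X)) : ofE (toE x) = x := rfl
lemma ofE_inj {x y : EndC C X} (h : ofE x = ofE y) : x = y := h

/-- The underlying correspondence, as a linear map. -/
noncomputable def ofL : EndC C X →ₗ[ℚ] C.A (X.prod X) where
  toFun := ofE
  map_add' := fun _ _ => rfl
  map_smul' := fun _ _ => rfl

lemma ofE_sum {ι : Type*} (s : Finset ι) (f : ι → EndC C X) :
    ofE (∑ i ∈ s, f i) = ∑ i ∈ s, ofE (f i) := map_sum ofL f s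

lemma cpow_eq (z : C.A (X.prod X)) (n : ℕ) : cpow z n = ofE (toE z ^ n) := by
  induction n with
  | zero => rw [pow_zero]; rfl
  | succ n ih => rw [pow_succ, ofE_mul, ← ih]; rfl

lemma cEval_eq (g : Polynomial ℚ) (z : C.A (X.prod X)) :
    cEval g z = ofE (Polynomial.aeval (toE z) g) := by
  rw [Polynomial.aeval_eq_sum_range, cEval, ofE_sum,
    Polynomial.sum_over_range _ (fun n => by rw [zero_smul])]
  apply Finset.sum_congr rfl
  intro n _
  rw [cpow_eq, ofE_smul]

lemma cEval_mul (g h : Polynomial ℚ) (z : C.A (X.prod X)) :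
    cEval (g * h) z = C.comp (cEval g z) (cEval h z) := by
  rw [cEval_eq, cEval_eq, cEval_eq, map_mul, ofE_mul]

lemma cEval_add (g h : Polynomial ℚ) (z : C.A (X.prod X)) :
    cEval (g + h) z = cEval g z + cEval h z := by
  rw [cEval_eq, cEval_eq, cEval_eq, map_add, ofE_add]

lemma cEval_zero (z : C.A (X.prod X)) : cEval 0 z = 0 := by
  rw [cEval_eq, map_zero, ofE_zero]

lemma cEval_one (z : C.A (X.prod X)) : cEval 1 z = dg C X := by
  rw [cEval_eq, map_one, ofE_one]

lemma cEval_smul (c : ℚ) (g : Polynomial ℚ) (z : C.A (X.prod X)) :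
    cEval (c • g) z = c • cEval g z := by
  rw [cEval_eq, cEval_eq, map_smul, ofE_smul]

lemma cEval_sum {ι : Type*} (s : Finset ι) (g : ι → Polynomial ℚ) (z : C.A (X.prod X)) :
    cEval (∑ i ∈ s, g i) z = ∑ i ∈ s, cEval (g i) z := by
  classical
  induction s using Finset.induction_on with
  | empty => rw [Finset.sum_empty, Finset.sum_empty, cEval_zero]
  | insert a s ha ih => rw [Finset.sum_insert ha, Finset.sum_insert ha, cEval_add, ih]

lemma cEval_monomial (n : ℕ) (c : ℚ) (z : C.A (X.prod X)) :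
    cEval (Polynomial.monomial n c) z = c • cpow z n := by
  rw [cEval, Polynomial.sum_monomial_index _ _ (by rw [zero_smul])]

lemma cpow_mem {z : C.A (X.prod X)} (hz : C.Deg X.dim z) (n : ℕ) : C.Deg X.dim (cpow z n) := by
  induction n with
  | zero => exact dg_mem X
  | succ n ih => exact deg_comp0 ih hz

lemma cEval_mem {z : C.A (X.prod X)} (hz : C.Deg X.dim z) (g : Polynomial ℚ) :
    C.Deg X.dim (cEval g z) := by
  rw [cEval, Polynomial.sum_def]
  exact Submodule.sum_mem _ fun n _ => Submodule.smul_mem _ _ (cpow_mem hz n)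

/-- Polynomials in an algebraic correspondence are algebraic. -/
lemma isAlgCorr_cEval {z : C.A (X.prod X)} (hz : IsAlgCorr z) (g : Polynomial ℚ) :
    IsAlgCorr (cEval g z) := by
  obtain ⟨P, hP0, hP⟩ := hz
  rw [cEval_eq] at hP
  obtain ⟨P', h1, h2⟩ := exists_poly_comp hP0 (ofE_inj hP) g
  refine ⟨P', h1, ?_⟩
  have h3 : toE (cEval g z) = Polynomial.aeval (toE z) g := cEval_eq g z
  rw [cEval_eq, h3, h2, ofE_zero]

lemma cEval_cEval (g' g : Polynomial ℚ) (z : C.A (X.prod X)) :
    cEval g' (cEval g z) = cEval (g'.comp g) z := by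
  have h3 : toE (cEval g z) = Polynomial.aeval (toE z) g := cEval_eq g z
  rw [cEval_eq, h3, cEval_eq, Polynomial.aeval_comp]

omit hC hI in
lemma cl_smul (c : ℚ) (z : C.A (X.prod X)) : H.cl (c • z) = (c : K) • H.cl z := by
  have := map_ratCast_smul (H.cl (X := X.prod X)) ℚ K c z
  simpa using this

variable [hH : IsWeil H]

omit hC hI hH in
lemma act_smul' (c : K) (Γ : H.A (X.prod X)) (a : H.A X) :
    H.act (c • Γ) a = c • H.act Γ a := by
  rw [← actB_apply, map_smul, LinearMap.smul_apply, actB_apply]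

lemma act_cEval [CharZero K] {z : C.A (X.prod X)} {a : H.A X} {q : ℚ}
    (h : H.act (H.cl z) a = (q : K) • a)
    (g : Polynomial ℚ) : H.act (H.cl (cEval g z)) a = ((g.eval q : ℚ) : K) • a := by
  have hp : ∀ n, H.act (H.cl (cpow z n)) a = ((q ^ n : ℚ) : K) • a := by
    intro n
    induction n with
    | zero =>
      rw [cpow, cl_dg, act_dg, pow_zero, Rat.cast_one, one_smul]
    | succ n ih =>
      rw [cpow, cl_comp, H.act_comp, ih, act_map_smul, h, smul_smul, pow_succ]
      push_cast
      rfl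
  induction g using Polynomial.induction_on' with
  | add p r hp' hr =>
    rw [cEval_add, map_add, TheoryData.act_add, hp', hr, Polynomial.eval_add, Rat.cast_add, add_smul]
  | monomial n c =>
    rw [cEval_monomial, cl_smul, act_smul', hp, smul_smul, Polynomial.eval_monomial]
    push_cast
    rfl

/-- **Chow-Kunneth decompositions from an algebraic weight correspondence.** -/
theorem ck_of_weight [CharZero K] [hS : IsStandard H] {z : C.A (X.prod X)} (hz : C.Deg X.dim z)
    (halg : IsAlgCorr z) (hw : IsWeight H z) :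
    ∃ π : ℕ → C.A (X.prod X), IsCK H X π ∧ ∀ j, ∃ g : Polynomial ℚ, π j = cEval g z := by
  obtain ⟨P, hP0, hP⟩ := halg
  rw [cEval_eq] at hP
  obtain ⟨g, h1, h2, h3, h4⟩ := exists_system (2 * X.dim + 1) (by omega) hP0 (ofE_inj hP)
  refine ⟨fun j => cEval (g j) z, ⟨fun j => cEval_mem hz _, fun j => ?_, fun i j hij => ?_, ?_,
    fun j hj => ?_, fun j l a ha => ?_⟩, fun j => ⟨g j, rfl⟩⟩
  · rw [cEval_eq, ← ofE_mul, h1, if_pos rfl]
  · rw [cEval_eq, cEval_eq, ← ofE_mul, h1, if_neg hij, ofE_zero]
  · simp only [cEval_eq]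
    rw [← ofE_sum, h2, ofE_one]
  · rw [h3 j (by omega), cEval_zero]
  · have h5 : H.act (H.cl z) a = (((l : ℤ) : ℚ) : K) • a := by
      rw [hw l a ha]
      push_cast
      rfl
    rw [act_cEval h5]
    by_cases hl : 0 ≤ l ∧ l ≤ 2 * X.dim
    · obtain ⟨n, rfl⟩ := Int.eq_ofNat_of_zero_le hl.1
      have h6 := h4 j n (by omega)
      rw [Int.cast_natCast, h6]
      split_ifs with h7 h8 h8
      · rw [Rat.cast_one, one_smul]
      · exact absurd (by exact_mod_cast h7) h8
      · exact absurd (by exact_mod_cast h8) h7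
      · rw [Rat.cast_zero, zero_smul]
    · have h6 : a = 0 := by
        by_cases hl0 : l < 0
        · have h7 := H.gr_neg X l hl0
          have h8 : a ∈ H.gr X l := ha
          rw [h7] at h8
          exact (Submodule.mem_bot _).1 h8
        · exact grH_top ha (by omega)
      rw [h6, smul_zero, ite_self]

end Pool.Agent.W543.CK
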