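import Pool.Agent.W543.CK.SumDefs
import Pool.Agent.W550.Dual.Defs

/-!
# Orthogonal direct sums of motives: definitions
-/

open CategoryTheory AlgebraicGeometry

universe u v w

namespace Pool.Agent.W543.CK

open Pool.Agent.H914 Pool.Agent.H914.VarClass Pool.Agent.H914.VarClass.Obj Pool.Agent.W492.BB
  Pool.Agent.W550.Corr Pool.Agent.W550.Murre

variable {k : Type u} [Field k] {𝒱 : VarClass k} {C : TheoryData.{u, v, 0} 𝒱 ℚ} {K : Type w}
  [Field K] {X Y : 𝒱.Obj}

/-- `X` and `Y` have the same dimension and the motive of `Y` is the orthogonal direct sum of the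
motive of `X` and of the motive `(Y, f)`: there are a correspondence of degree zero `a` from `X` to
`Y` and a rational number `c` such that, with `b = c a^t`, the composite `X → Y → X` of `a` and `b`
is the identity and the composite `Y → X → Y` of `b` and `a` is `Δ - f`. For example, `Y → X` is a
surjective morphism of varieties of the same dimension, for example a blow-up. -/
def OrthSplits (C : TheoryData.{u, v, 0} 𝒱 ℚ) (X Y : 𝒱.Obj) (f : C.A (Y.prod Y)) : Prop :=
  X.dim = Y.dim ∧ ∃ (a : C.A (X.prod Y)) (c : ℚ), C.Deg X.dim a ∧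
    C.comp a (c • tp C a) = dg C X ∧ f + C.comp (c • tp C a) a = dg C Y

/-- The motive of `Y` is the orthogonal direct sum of the motive of `X` and of a motive which has a
Chow-Kunneth decomposition and whose homologically trivial endomorphisms are nilpotent. -/
def OrthLink (H : WeilTheoryData.{u, v, w} C K) (X Y : 𝒱.Obj) : Prop :=
  ∃ f : C.A (Y.prod Y), OrthSplits C X Y f ∧ (∃ q, IsCKOf H f q) ∧ NilEnd H f

end Pool.Agent.W543.CK
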