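import Pool.Agent.W543.CK.OrthMain

/-!
# Self-dual Chow-Kunneth decompositions: cancellation of orthogonal summands
-/

open CategoryTheory AlgebraicGeometry

universe u v w

namespace Pool.Agent.W543.CK

open Pool.Agent.H914 Pool.Agent.H914.VarClass Pool.Agent.H914.VarClass.Obj Pool.Agent.W492.BB
  Pool.Agent.W550.Corr Pool.Agent.W550.Murre Pool.Agent.W550.Dual

variable {k : Type u} [Field k] {𝒱 : VarClass k} {C : TheoryData.{u, v, 0} 𝒱 ℚ} {K : Type w}
  [Field K] {H : WeilTheoryData.{u, v, w} C K} [hC : IsChow C] [hH : IsWeil H] [hI : HasIso C]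
  {X Y : 𝒱.Obj}

attribute [local instance] Pool.Agent.W550.Murre.instE Pool.Agent.W550.Murre.instH
  Pool.Agent.W550.Dual.modE Pool.Agent.W550.Dual.algE

/-- A criterion for a family to be a Chow-Kunneth decomposition. -/
lemma isCK_of [hS : IsStandard H] {g : ℕ → C.A (X.prod X)} (hdeg : ∀ j, C.Deg X.dim (g j))
    (hmul : ∀ i j, C.comp (g i) (g j) = if i = j then g i else 0)
    (hsum : ∑ j ∈ Finset.range (2 * X.dim + 1), g j = dg C X)
    (hvan : ∀ j, 2 * X.dim < j → g j = 0)
    (hcoh : ∀ j ≤ 2 * X.dim, ∀ (l : ℤ) (a : H.A X), H.Deg l a →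
      H.act (H.cl (g j)) a = if l = j then a else 0) : IsCK H X g := by
  refine ⟨hdeg, fun j => by rw [hmul, if_pos rfl], fun i j hij => by rw [hmul, if_neg hij], hsum,
    hvan, fun j l a ha => ?_⟩
  by_cases hj : j ≤ 2 * X.dim
  · exact hcoh j hj l a ha
  · have h1 : H.act (H.cl (g j)) a = 0 := by
      rw [hvan j (by omega), map_zero, TheoryData.act_zero]
    rw [h1]
    split_ifs with hl
    · exact (coh_zero ha (by omega)).symm
    · rfl

/-- From the summands to the orthogonal sum. -/
theorem selfDual_of_summands (hS : IsStandard H) {f : C.A (Y.prod Y)} (hs : OrthSplits C X Y f)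
    {q : ℕ → C.A (Y.prod Y)} (hq : IsCKOf H f q) (hqd : IsSelfDual q) (hX : HasSelfDual H X) :
    HasSelfDual H Y := by
  obtain ⟨hd, a, c, ha, hab, hf⟩ := hs
  obtain ⟨π, hπ, hπd⟩ := hX
  set b : C.A (Y.prod X) := c • tp C a with hb'
  have hb : C.Deg Y.dim b := splits_of_orth (f := f) hd ha
  have htb : tp C b = c • a := by rw [hb', tp_smul, tp_tp]
  obtain ⟨haf, hfb⟩ := mul_zero_of_splits hab hf
  have ha0 : a ∈ C.gr (X.prod Y) (X.dim + 0) := by rw [add_zero]; exact ha
  have hb0 : b ∈ C.gr (Y.prod X) (Y.dim + 0) := by rw [add_zero]; exact hb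
  have hfq : ∀ j, C.comp f (q j) = q j := by
    intro j
    by_cases hj : j < 2 * Y.dim + 1
    · rw [← hq.sum, sum_comp, Finset.sum_eq_single_of_mem j (Finset.mem_range.2 hj), hq.mul,
        if_pos rfl]
      intro i _ hij
      rw [hq.mul, if_neg hij]
    · rw [hq.vanish j (by omega), comp_zero]
  have hqf : ∀ j, C.comp (q j) f = q j := by
    intro j
    by_cases hj : j < 2 * Y.dim + 1
    · rw [← hq.sum, comp_sum, Finset.sum_eq_single_of_mem j (Finset.mem_range.2 hj), hq.mul,
        if_pos rfl]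
      intro i _ hij
      rw [hq.mul, if_neg (Ne.symm hij)]
    · rw [hq.vanish j (by omega), zero_comp]
  have haq : ∀ j, C.comp a (q j) = 0 := by
    intro j
    rw [← hfq j, ← comp_assoc, haf, zero_comp]
  have hqb : ∀ j, C.comp (q j) b = 0 := by
    intro j
    rw [← hqf j, comp_assoc, hfb, comp_zero]
  refine ⟨fun j => C.comp (C.comp b (π j)) a + q j, isCK_of ?_ ?_ ?_ ?_ ?_, ?_⟩
  · intro j
    refine Submodule.add_mem _ ?_ (hq.deg j)
    have h1 : π j ∈ C.gr (X.prod X) (X.dim + 0) := by rw [add_zero]; exact hπ.deg j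
    have h2 := deg_comp (deg_comp hb0 h1) ha0
    simpa using h2
  · intro i j
    have e1 : C.comp (C.comp (C.comp b (π i)) a) (C.comp (C.comp b (π j)) a) =
        C.comp (C.comp b (C.comp (π i) (π j))) a := by
      calc C.comp (C.comp (C.comp b (π i)) a) (C.comp (C.comp b (π j)) a) =
          C.comp (C.comp b (C.comp (π i) (C.comp (C.comp a b) (π j)))) a := by
            simp only [comp_assoc]
        _ = _ := by rw [hab, dg_comp]
    have e2 : C.comp (C.comp (C.comp b (π i)) a) (q j) = 0 := by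
      rw [comp_assoc, haq, comp_zero]
    have e3 : C.comp (q i) (C.comp (C.comp b (π j)) a) = 0 := by
      rw [← comp_assoc, ← comp_assoc, hqb, zero_comp, zero_comp]
    rw [comp_add, add_comp, add_comp, e1, e2, e3, hq.mul]
    split_ifs with hij
    · subst hij
      rw [hπ.idem]
      abel
    · rw [hπ.orth i j hij, comp_zero, zero_comp]
      abel
  · rw [Finset.sum_add_distrib, hq.sum, ← sum_comp, ← comp_sum, ← hd, hπ.sum, comp_dg, add_comm]
    exact hf
  · intro j hj
    rw [hq.vanish j hj, hπ.vanish j (by omega), comp_zero, zero_comp, add_zero]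
  · intro j _ l x hx
    have h1 : H.act (H.cl b) x ∈ H.gr X l := by
      have := actH_mem H hb0 hx
      simpa using this
    rw [map_add, TheoryData.act_add, cl_comp, H.act_comp, cl_comp, H.act_comp, hπ.coh j l _ h1,
      hq.coh j l x hx]
    have h2 : H.act (H.cl f) x + H.act (H.cl a) (H.act (H.cl b) x) = x := by
      rw [← H.act_comp, ← cl_comp, ← TheoryData.act_add, ← map_add, hf, cl_dg, act_dg]
    split_ifs
    · rw [add_comm]; exact h2
    · rw [add_zero]; exact H.act_map_zero _
  · intro j hj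
    have e1 : tp C (π j) = π (2 * Y.dim - j) := by
      rw [← hd] at hj ⊢
      exact hπd j hj
    have e2 : tp C (q j) = q (2 * Y.dim - j) := hqd j hj
    change tp C (C.comp (C.comp b (π j)) a + q j) =
      C.comp (C.comp b (π (2 * Y.dim - j))) a + q (2 * Y.dim - j)
    rw [tp_add, e2, tp_comp, tp_comp, e1, htb, hb', comp_smul', comp_smul', smul_comp', smul_comp',
      comp_assoc]

/-- **Cancellation: from the orthogonal sum to the summand.** -/
theorem selfDual_of_sum (hS : IsStandard H) {f : C.A (Y.prod Y)} (hs : OrthSplits C X Y f)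
    {q : ℕ → C.A (Y.prod Y)} (hq : IsCKOf H f q) (hqd : IsSelfDual q) (hnil : NilEnd H f)
    (hY : HasSelfDual H Y) : HasSelfDual H X := by
  classical
  obtain ⟨hd, a, c, ha, hab, hf⟩ := hs
  obtain ⟨π, hπ, hπd⟩ := hY
  have hτf : tp C f = f := tp_orth (X := X) hf
  set b : C.A (Y.prod X) := c • tp C a with hb'
  have hb : C.Deg Y.dim b := splits_of_orth (f := f) hd ha
  have htb : tp C b = c • a := by rw [hb', tp_smul, tp_tp]
  obtain ⟨haf, hfb⟩ := mul_zero_of_splits hab hf
  have ha0 : a ∈ C.gr (X.prod Y) (X.dim + 0) := by rw [add_zero]; exact ha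
  have hb0 : b ∈ C.gr (Y.prod X) (Y.dim + 0) := by rw [add_zero]; exact hb
  obtain ⟨g, g1, g2, g3, g4, g5, g6, g7⟩ := cancel_dual (tau C Y) tau_one tau_mul tau_tau
    (psi H Y) Y.dim (h := fun j => psi H Y (sysP hπ j)) (p := sysP hπ) (f := sysF hq)
    (q := sysQ hq) (sysP_mul hπ) (sysP_sum hπ) (sysP_zero hπ) (fun j => rfl)
    (fun j hj => un_ext (hπd j hj)) (sysQ_mul hq) (sysQ_sum hq) (sysQ_zero hq) (psi_sysQ hπ hq)
    (fun j hj => un_ext (hqd j hj)) (psi_comm hπ hq) (isNilpotent_of_nilEnd hq hnil)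
  have hba : C.comp b a = un (1 - sysF hq) := by
    have h1 : un (1 - sysF hq) = dg C Y - f := rfl
    rw [h1, ← hf, add_sub_cancel_left]
  have hGG : ∀ j, C.comp (C.comp b a) (un (g j)) = un (g j) := by
    intro j
    rw [hba, ← un_mul, g4]
  refine ⟨fun j => C.comp (C.comp a (un (g j))) b, isCK_of ?_ ?_ ?_ ?_ ?_, ?_⟩
  · intro j
    have h1 : un (g j) ∈ C.gr (Y.prod Y) (Y.dim + 0) := by rw [add_zero]; exact un_mem (g j)
    have h2 := deg_comp (deg_comp ha0 h1) hb0
    simpa using h2
  · intro i j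
    have e1 : C.comp (C.comp (C.comp a (un (g i))) b) (C.comp (C.comp a (un (g j))) b) =
        C.comp (C.comp a (C.comp (un (g i)) (un (g j)))) b := by
      calc C.comp (C.comp (C.comp a (un (g i))) b) (C.comp (C.comp a (un (g j))) b) =
          C.comp (C.comp a (C.comp (un (g i)) (C.comp (C.comp b a) (un (g j))))) b := by
            simp only [comp_assoc]
        _ = _ := by rw [hGG]
    rw [e1, ← un_mul, g1]
    split_ifs
    · rfl
    · rw [un_zero, comp_zero, zero_comp]
  · rw [hd, ← sum_comp, ← comp_sum, ← un_sum, g2, ← hba, ← comp_assoc, hab, dg_comp, hab]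
  · intro j hj
    change C.comp (C.comp a (un (g j))) b = 0
    rw [g3 j (by omega), un_zero, comp_zero, zero_comp]
  · intro j _ l x hx
    have h1 : H.act (H.cl a) x ∈ H.gr Y l := by
      have := actH_mem H ha0 hx
      simpa using this
    have h2 : H.act (H.cl (un (g j))) (H.act (H.cl a) x) =
        if l = j then H.act (H.cl a) x else 0 := by
      have h3 : H.cl (un (g j)) = H.cl (C.comp (un (1 - sysF hq)) (π j)) := by
        have h4 : psi H Y (g j) = psi H Y ((1 - sysF hq) * sysP hπ j) := by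
          rw [g6, map_mul, map_sub, map_one]
        exact h4
      rw [h3, ← hba, cl_comp, H.act_comp, cl_comp, H.act_comp]
      have h5 : H.act (H.cl b) (H.act (H.cl a) x) = x := by
        rw [← H.act_comp, ← cl_comp, hab, cl_dg, act_dg]
      rw [h5]
      exact hπ.coh j l _ h1
    rw [cl_comp, H.act_comp, cl_comp, H.act_comp, h2]
    split_ifs
    · rw [← H.act_comp, ← cl_comp, hab, cl_dg, act_dg]
    · exact H.act_map_zero _
  · intro j hj
    have e1 : tp C (un (g j)) = un (g (2 * X.dim - j)) := by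
      rw [hd] at hj ⊢
      exact congrArg un (g7 j hj)
    change tp C (C.comp (C.comp a (un (g j))) b) = C.comp (C.comp a (un (g (2 * X.dim - j)))) b
    rw [tp_comp, tp_comp, e1, htb, hb', smul_comp', comp_smul', comp_assoc]

/-- **Self-dual Chow-Kunneth decompositions and orthogonal links.** -/
theorem selfDual_iff_of_link (hS : IsStandard H) (h : OrthLink H X Y) :
    HasSelfDual H X ↔ HasSelfDual H Y := by
  obtain ⟨f, hs, ⟨q, hq⟩, hn⟩ := h
  have hτf : tp C f = f := by
    obtain ⟨hd, a, c, ha, hab, hf⟩ := hs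
    exact tp_orth (X := X) hf
  have hsp : SplitsOff C X Y f := by
    obtain ⟨hd, a, c, ha, hab, hf⟩ := hs
    exact ⟨a, c • tp C a, ha, splits_of_orth (f := f) hd ha, hab, hf⟩
  constructor
  · intro hX
    obtain ⟨π, hπ, _⟩ := id hX
    obtain ⟨ρ, hρ⟩ := ck_of_summands hS hsp hq ⟨π, hπ⟩
    obtain ⟨q', hq', hqd⟩ := exists_selfDualOf hρ hτf hq hn
    exact selfDual_of_summands hS hs hq' hqd hX
  · intro hY
    obtain ⟨ρ, hρ, _⟩ := id hY
    obtain ⟨q', hq', hqd⟩ := exists_selfDualOf hρ hτf hq hn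
    exact selfDual_of_sum hS hs hq' hqd hn hY

/-- **Self-dual Chow-Kunneth decompositions and chains of orthogonal links.** -/
theorem selfDual_iff_of_chain (hS : IsStandard H) (h : Relation.EqvGen (OrthLink H) X Y) :
    HasSelfDual H X ↔ HasSelfDual H Y := by
  induction h with
  | rel X Y h => exact selfDual_iff_of_link hS h
  | refl X => exact Iff.rfl
  | symm X Y _ ih => exact ih.symm
  | trans X Y Z _ _ ih1 ih2 => exact ih1.trans ih2

end Pool.Agent.W543.CK
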