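import Pool.Agent.W543.CK.SumMain

/-!
# Cancellation of summands in Chow-Kunneth decompositions
-/

open CategoryTheory AlgebraicGeometry

universe u v w

namespace Pool.Agent.W543.CK

open Pool.Agent.H914 Pool.Agent.H914.VarClass Pool.Agent.H914.VarClass.Obj Pool.Agent.W492.BB
  Pool.Agent.W550.Corr Pool.Agent.W550.Murre

variable {k : Type u} [Field k] {𝒱 : VarClass k} {C : TheoryData.{u, v, 0} 𝒱 ℚ} {K : Type w}
  [Field K] {H : WeilTheoryData.{u, v, w} C K} [hC : IsChow C] [hI : HasIso C] [hH : IsWeil H]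
  {X Y : 𝒱.Obj}

noncomputable local instance instE4 (C : TheoryData.{u, v, 0} 𝒱 ℚ) [IsChow C] [HasIso C]
    (X : 𝒱.Obj) : Ring (EndC C X) := endRing C X

noncomputable local instance instH4 (H : WeilTheoryData.{u, v, w} C K) [IsWeil H] (X : 𝒱.Obj) :
    Ring (EndC H.toTheoryData X) := endRing H.toTheoryData X

/-- Two cohomological classes of correspondences with the same action. -/
lemma cl_ext_act {x y : C.A (X.prod X)}
    (h : ∀ (l : ℤ) (a : H.A X), H.Deg l a → H.act (H.cl x) a = H.act (H.cl y) a) :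
    H.cl x = H.cl y := by
  rw [← sub_eq_zero, ← map_sub]
  refine cl_eq_zero fun l c hc => ?_
  rw [map_sub, H.act_sub, h l c hc, sub_self]

/-- **Cancellation: from the sum to the summand.** -/
theorem ck_of_sum (hS : IsStandard H) {f : C.A (Y.prod Y)} (hs : SplitsOff C X Y f)
    {q : ℕ → C.A (Y.prod Y)} (hq : IsCKOf H f q) (hnil : NilEnd H f) (hY : HasCK H Y) :
    HasCK H X := by
  classical
  obtain ⟨a, b, ha, hb, hab, hf⟩ := hs
  obtain ⟨π, hπ⟩ := hY
  obtain ⟨haf, hfb⟩ := mul_zero_of_splits hab hf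
  have ha0 : a ∈ C.gr (X.prod Y) (X.dim + 0) := by rw [add_zero]; exact ha
  have hb0 : b ∈ C.gr (Y.prod X) (Y.dim + 0) := by rw [add_zero]; exact hb
  have hfdeg : C.Deg Y.dim f := by
    rw [← hq.sum]
    exact Submodule.sum_mem _ fun j _ => hq.deg j
  have hf0 : f ∈ C.gr (Y.prod Y) (Y.dim + 0) := by rw [add_zero]; exact hfdeg
  have hfact : ∀ (l : ℤ) (c : H.A Y), H.Deg l c → H.Deg l (H.act (H.cl f) c) := by
    intro l c hc
    have := actH_mem H hf0 hc
    simpa using this
  set F : E0 C Y := mkE f hfdeg with hF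
  set P : ℕ → E0 C Y := toE0 hπ with hP
  set Q : ℕ → E0 C Y := fun j => mkE (q j) (hq.deg j) with hQ
  have crF : cr F = f := rfl
  have crP : ∀ j, cr (P j) = π j := fun j => rfl
  have crQ : ∀ j, cr (Q j) = q j := fun j => rfl
  obtain ⟨g, g1, g2, g3, g4, g5, g6⟩ := cancel (phi H Y) (2 * Y.dim + 1)
    (h := fun j => phi H Y (P j)) (p := P) (f := F) (q := Q)
    (fun i j => by
      apply cr_ext
      rw [cr_mul, crP, crP]
      split_ifs with h
      · rw [h, crP, hπ.idem]
      · rw [hπ.orth i j h, cr_zero])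
    (by
      apply cr_ext
      rw [cr_sum, cr_one, ← hπ.sum]
      rfl)
    (fun j hj => by
      apply cr_ext
      rw [crP, hπ.vanish j (by omega), cr_zero])
    (fun j => rfl)
    (fun i j => by
      apply cr_ext
      rw [cr_mul, crQ, crQ, hq.mul]
      split_ifs with h
      · rw [crQ]
      · rw [cr_zero])
    (by
      apply cr_ext
      rw [cr_sum, crF, ← hq.sum]
      exact Finset.sum_congr rfl fun j _ => crQ j)
    (fun j hj => by
      apply cr_ext
      rw [crQ, hq.vanish j (by omega), cr_zero])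
    (fun j => by
      rw [← map_mul]
      change H.cl (q j) = H.cl (C.comp f (π j))
      apply cl_ext_act
      intro l c hc
      rw [hq.coh j l c hc, cl_comp, H.act_comp, hπ.coh j l _ (hfact l c hc)])
    (fun j => by
      rw [← map_mul, ← map_mul]
      change H.cl (C.comp (π j) f) = H.cl (C.comp f (π j))
      apply cl_ext_act
      intro l c hc
      rw [cl_comp, H.act_comp, cl_comp, H.act_comp, hπ.coh j l _ (hfact l c hc), hπ.coh j l c hc]
      split_ifs
      · rfl
      · exact H.act_map_zero _)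
    (fun x hx1 hx2 hx3 => by
      obtain ⟨n, hn⟩ := hnil (cr x) (cr_mem x) (congrArg cr hx1) (congrArg cr hx2) hx3
      refine ⟨n, cr_ext ?_⟩
      have h1 : ∀ m, cr (x ^ m) = cpow (cr x) m := by
        intro m
        induction m with
        | zero => rw [pow_zero, cr_one]; rfl
        | succ m ih => rw [pow_succ, cr_mul, ih]; rfl
      rw [h1, hn, cr_zero])
  have hba : C.comp b a = cr (1 - F) := by
    have h1 : cr (1 - F) = dg C Y - f := rfl
    rw [h1, ← hf, add_sub_cancel_left]
  have hGG : ∀ j, C.comp (C.comp b a) (cr (g j)) = cr (g j) := by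
    intro j
    rw [hba, ← cr_mul, g4]
  apply hasCK_of_system hS (n := 2 * Y.dim + 1) (g := fun j => C.comp (C.comp a (cr (g j))) b)
  · intro j
    have h1 : cr (g j) ∈ C.gr (Y.prod Y) (Y.dim + 0) := by rw [add_zero]; exact cr_mem (g j)
    have h2 := deg_comp (deg_comp ha0 h1) hb0
    simpa using h2
  · intro i j
    have e1 : C.comp (C.comp (C.comp a (cr (g i))) b) (C.comp (C.comp a (cr (g j))) b) =
        C.comp (C.comp a (C.comp (cr (g i)) (cr (g j)))) b := by
      calc C.comp (C.comp (C.comp a (cr (g i))) b) (C.comp (C.comp a (cr (g j))) b) =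
          C.comp (C.comp a (C.comp (cr (g i)) (C.comp (C.comp b a) (cr (g j))))) b := by
            simp only [comp_assoc]
        _ = _ := by rw [hGG]
    rw [e1, ← cr_mul, g1]
    split_ifs
    · rfl
    · rw [cr_zero, comp_zero, zero_comp]
  · rw [← sum_comp, ← comp_sum, ← cr_sum, g2, ← hba, ← comp_assoc, hab, dg_comp, hab]
  · intro j _ l c hc
    have h1 : H.act (H.cl a) c ∈ H.gr Y l := by
      have := actH_mem H ha0 hc
      simpa using this
    have h2 : H.act (H.cl (cr (g j))) (H.act (H.cl a) c) =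
        if l = j then H.act (H.cl a) c else 0 := by
      have h3 : H.cl (cr (g j)) = H.cl (C.comp (cr (1 - F)) (π j)) := by
        have h4 : phi H Y (g j) = phi H Y ((1 - F) * P j) := by
          rw [g6, map_mul, map_sub, map_one]
        exact h4
      rw [h3, ← hba, cl_comp, H.act_comp, cl_comp, H.act_comp]
      have h5 : H.act (H.cl b) (H.act (H.cl a) c) = c := by
        rw [← H.act_comp, ← cl_comp, hab, cl_dg, act_dg]
      rw [h5]
      exact hπ.coh j l _ h1
    rw [cl_comp, H.act_comp, cl_comp, H.act_comp, h2]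
    split_ifs
    · rw [← H.act_comp, ← cl_comp, hab, cl_dg, act_dg]
    · exact H.act_map_zero _

/-- **Chow-Kunneth decompositions and links.** -/
theorem ck_iff_of_link (hS : IsStandard H) (h : Link H X Y) : HasCK H X ↔ HasCK H Y := by
  obtain ⟨f, hs, ⟨q, hq⟩, hn⟩ := h
  exact ⟨fun hX => ck_of_summands hS hs hq hX, fun hY => ck_of_sum hS hs hq hn hY⟩

/-- **Chow-Kunneth decompositions and chains of links.** -/
theorem ck_iff_of_chain (hS : IsStandard H) (h : Relation.EqvGen (Link H) X Y) :
    HasCK H X ↔ HasCK H Y := by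
  induction h with
  | rel X Y h => exact ck_iff_of_link hS h
  | refl X => exact Iff.rfl
  | symm X Y _ ih => exact ih.symm
  | trans X Y Z _ _ ih1 ih2 => exact ih1.trans ih2

end Pool.Agent.W543.CK
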