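import Pool.Agent.W543.CK.OrthDefs
import Pool.Agent.W543.CK.CornerDual
import Pool.Agent.W543.CK.SumFin
import Pool.Agent.W550.Dual.Main

/-!
# Self-dual Chow-Kunneth decompositions and orthogonal direct sums
-/

open CategoryTheory AlgebraicGeometry

universe u v w

namespace Pool.Agent.W543.CK

open Pool.Agent.H914 Pool.Agent.H914.VarClass Pool.Agent.H914.VarClass.Obj Pool.Agent.W492.BB
  Pool.Agent.W550.Corr Pool.Agent.W550.Murre Pool.Agent.W550.Dual

variable {k : Type u} [Field k] {𝒱 : VarClass k} {C : TheoryData.{u, v, 0} 𝒱 ℚ} {K : Type w}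
  [Field K] {H : WeilTheoryData.{u, v, w} C K} [hC : IsChow C] [hH : IsWeil H] [hI : HasIso C]
  {X Y : 𝒱.Obj}

attribute [local instance] Pool.Agent.W550.Murre.instE Pool.Agent.W550.Murre.instH
  Pool.Agent.W550.Dual.modE Pool.Agent.W550.Dual.algE

variable (H) in
/-- The cycle class map, as a homomorphism of rings of correspondences. -/
noncomputable def psi (X : 𝒱.Obj) : A0 C X →+* EndC H.toTheoryData X where
  toFun := fun x => (H.cl (un x) : H.A (X.prod X))
  map_one' := cl_dg H X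
  map_mul' := fun x y => cl_comp H (un x) (un y)
  map_zero' := map_zero (H.cl (X := X.prod X))
  map_add' := fun x y => map_add (H.cl (X := X.prod X)) (un x) (un y)

lemma psi_apply (x : A0 C X) : psi H X x = (H.cl (un x) : H.A (X.prod X)) := rfl

lemma psi_ext {x y : A0 C X}
    (h : ∀ (l : ℤ) (a : H.A X), H.Deg l a → H.act (H.cl (un x)) a = H.act (H.cl (un y)) a) :
    psi H X x = psi H X y := cl_ext_act h

lemma cl_tp (x : C.A (X.prod Y)) : H.cl (tp C x) = tp H.toTheoryData (H.cl x) := by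
  rw [tp, tp, H.cl_pull]

/-! ### The systems of idempotents -/

/-- A Chow-Kunneth decomposition as a system. -/
noncomputable def sysP {π : ℕ → C.A (Y.prod Y)} (hπ : IsCK H Y π) (j : ℕ) : A0 C Y :=
  mkA (π j) (hπ.deg j)

lemma un_sysP {π : ℕ → C.A (Y.prod Y)} (hπ : IsCK H Y π) (j : ℕ) : un (sysP hπ j) = π j := rfl

lemma sysP_mul {π : ℕ → C.A (Y.prod Y)} (hπ : IsCK H Y π) (i j : ℕ) :
    sysP hπ i * sysP hπ j = if i = j then sysP hπ i else 0 := by
  apply un_ext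
  rw [un_mul, un_sysP, un_sysP]
  split_ifs with h
  · rw [h, un_sysP, hπ.idem]
  · rw [hπ.orth i j h, un_zero]

lemma sysP_sum {π : ℕ → C.A (Y.prod Y)} (hπ : IsCK H Y π) :
    ∑ j ∈ Finset.range (2 * Y.dim + 1), sysP hπ j = 1 := by
  apply un_ext
  rw [un_sum, un_one, ← hπ.sum]
  rfl

lemma sysP_zero {π : ℕ → C.A (Y.prod Y)} (hπ : IsCK H Y π) (j : ℕ) (hj : 2 * Y.dim + 1 ≤ j) :
    sysP hπ j = 0 := by
  apply un_ext
  rw [un_sysP, hπ.vanish j (by omega), un_zero]

/-- A Chow-Kunneth decomposition of a summand as a system. -/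
noncomputable def sysQ {f : C.A (Y.prod Y)} {q : ℕ → C.A (Y.prod Y)} (hq : IsCKOf H f q)
    (j : ℕ) : A0 C Y := mkA (q j) (hq.deg j)

lemma un_sysQ {f : C.A (Y.prod Y)} {q : ℕ → C.A (Y.prod Y)} (hq : IsCKOf H f q) (j : ℕ) :
    un (sysQ hq j) = q j := rfl

lemma deg_of {f : C.A (Y.prod Y)} {q : ℕ → C.A (Y.prod Y)} (hq : IsCKOf H f q) :
    C.Deg Y.dim f := by
  rw [← hq.sum]
  exact Submodule.sum_mem _ fun j _ => hq.deg j

/-- The projector of the summand. -/
noncomputable def sysF {f : C.A (Y.prod Y)} {q : ℕ → C.A (Y.prod Y)} (hq : IsCKOf H f q) :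
    A0 C Y := mkA f (deg_of hq)

lemma un_sysF {f : C.A (Y.prod Y)} {q : ℕ → C.A (Y.prod Y)} (hq : IsCKOf H f q) :
    un (sysF hq) = f := rfl

lemma sysQ_mul {f : C.A (Y.prod Y)} {q : ℕ → C.A (Y.prod Y)} (hq : IsCKOf H f q) (i j : ℕ) :
    sysQ hq i * sysQ hq j = if i = j then sysQ hq i else 0 := by
  apply un_ext
  rw [un_mul, un_sysQ, un_sysQ, hq.mul]
  split_ifs with h
  · rw [un_sysQ]
  · rw [un_zero]

lemma sysQ_sum {f : C.A (Y.prod Y)} {q : ℕ → C.A (Y.prod Y)} (hq : IsCKOf H f q) :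
    ∑ j ∈ Finset.range (2 * Y.dim + 1), sysQ hq j = sysF hq := by
  apply un_ext
  rw [un_sum, un_sysF]
  exact hq.sum

lemma sysQ_zero {f : C.A (Y.prod Y)} {q : ℕ → C.A (Y.prod Y)} (hq : IsCKOf H f q) (j : ℕ)
    (hj : 2 * Y.dim + 1 ≤ j) : sysQ hq j = 0 := by
  apply un_ext
  rw [un_sysQ, hq.vanish j (by omega), un_zero]

lemma act_deg_of {f : C.A (Y.prod Y)} {q : ℕ → C.A (Y.prod Y)} (hq : IsCKOf H f q) (l : ℤ)
    (c : H.A Y) (hc : H.Deg l c) : H.Deg l (H.act (H.cl f) c) := by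
  have hf0 : f ∈ C.gr (Y.prod Y) (Y.dim + 0) := by rw [add_zero]; exact deg_of hq
  have := actH_mem H hf0 hc
  simpa using this

lemma psi_sysQ {π : ℕ → C.A (Y.prod Y)} (hπ : IsCK H Y π) {f : C.A (Y.prod Y)}
    {q : ℕ → C.A (Y.prod Y)} (hq : IsCKOf H f q) (j : ℕ) :
    psi H Y (sysQ hq j) = psi H Y (sysF hq) * psi H Y (sysP hπ j) := by
  rw [← map_mul]
  apply psi_ext
  intro l c hc
  rw [un_mul, un_sysQ, un_sysF, un_sysP, hq.coh j l c hc, cl_comp, H.act_comp,
    hπ.coh j l _ (act_deg_of hq l c hc)]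

lemma psi_comm {π : ℕ → C.A (Y.prod Y)} (hπ : IsCK H Y π) {f : C.A (Y.prod Y)}
    {q : ℕ → C.A (Y.prod Y)} (hq : IsCKOf H f q) (j : ℕ) :
    psi H Y (sysP hπ j) * psi H Y (sysF hq) = psi H Y (sysF hq) * psi H Y (sysP hπ j) := by
  rw [← map_mul, ← map_mul]
  apply psi_ext
  intro l c hc
  rw [un_mul, un_mul, un_sysF, un_sysP, cl_comp, H.act_comp, cl_comp, H.act_comp,
    hπ.coh j l _ (act_deg_of hq l c hc), hπ.coh j l c hc]
  split_ifs
  · rfl
  · exact H.act_map_zero _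

lemma isNilpotent_of_nilEnd {f : C.A (Y.prod Y)} {q : ℕ → C.A (Y.prod Y)} (hq : IsCKOf H f q)
    (hnil : NilEnd H f) (x : A0 C Y) (hx1 : sysF hq * x = x) (hx2 : x * sysF hq = x)
    (hx3 : psi H Y x = 0) : IsNilpotent x := by
  obtain ⟨n, hn⟩ := hnil (un x) (un_mem x) (congrArg un hx1) (congrArg un hx2) hx3
  refine ⟨n, un_ext ?_⟩
  have h1 : ∀ m, un (x ^ m) = cpow (un x) m := by
    intro m
    induction m with
    | zero => rw [pow_zero, un_one]; rfl
    | succ m ih => rw [pow_succ, un_mul, ih]; rfl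
  rw [h1, hn, un_zero]

/-! ### The summand -/

/-- A summand with a Chow-Kunneth decomposition and nilpotent homologically trivial endomorphisms
has a self-dual Chow-Kunneth decomposition. -/
theorem exists_selfDualOf [hS : IsStandard H] {π : ℕ → C.A (Y.prod Y)} (hπ : IsCK H Y π)
    {f : C.A (Y.prod Y)} (hτf : tp C f = f) {q : ℕ → C.A (Y.prod Y)} (hq : IsCKOf H f q)
    (hnil : NilEnd H f) : ∃ q' : ℕ → C.A (Y.prod Y), IsCKOf H f q' ∧ IsSelfDual q' := by
  have hcl : ∀ j, H.cl (q j) = H.cl (C.comp f (π j)) := by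
    intro j
    have h1 := psi_sysQ hπ hq j
    rw [← map_mul] at h1
    exact h1
  have hcl' : ∀ j ≤ 2 * Y.dim, H.cl (tp C (q (2 * Y.dim - j))) = H.cl (q j) := by
    intro j hj
    have e1 : tp C (π (2 * Y.dim - j)) = dualCK π j := by rw [dualCK, if_pos hj]
    have e2 : H.cl (C.comp (π j) f) = H.cl (C.comp f (π j)) := by
      have h1 := psi_comm hπ hq j
      rw [← map_mul, ← map_mul] at h1
      exact h1
    rw [cl_tp, hcl, ← cl_tp, tp_comp, hτf, e1, cl_comp, hπ.dual.cl_eq hπ j, ← cl_comp, e2, hcl]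
  have hqq : ∀ j, psi H Y (sysQ hq j) * psi H Y (sysQ hq j) = psi H Y (sysQ hq j) := by
    intro j
    rw [← map_mul, sysQ_mul, if_pos rfl]
  obtain ⟨g, g1, g2, g3, g4, g5⟩ := selfAdjoint_corner (tau C Y) tau_one tau_mul tau_tau (psi H Y)
    (d := Y.dim) (f := sysF hq) (q := sysQ hq) (sysQ_mul hq) (sysQ_sum hq) (sysQ_zero hq)
    (un_ext (by rw [un_tau, un_sysF, hτf]))
    (by
      rw [map_sum, ← sysQ_sum hq, map_sum]
      apply Finset.sum_congr rfl
      intro j hj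
      rw [map_mul]
      have h1 : psi H Y (tau C Y (sysQ hq (2 * Y.dim - j))) = psi H Y (sysQ hq j) :=
        hcl' j (by have := Finset.mem_range.1 hj; omega)
      rw [h1, hqq])
    (isNilpotent_of_nilEnd hq hnil)
  refine ⟨fun j => un (g j), ⟨fun j => un_mem _, fun i j => ?_, ?_, fun j hj => ?_,
    fun j l a ha => ?_⟩, fun j hj => ?_⟩
  · rw [← un_mul, g1]
    split_ifs
    · rfl
    · rw [un_zero]
  · rw [← un_sum, g2, un_sysF]
  · rw [g3 j (by omega), un_zero]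
  · have h1 : H.cl (un (g j)) = H.cl (q j) := g4 j
    rw [h1]
    exact hq.coh j l a ha
  · exact congrArg un (g5 j hj)

/-! ### Orthogonal splittings -/

lemma tp_add (x y : C.A (X.prod Y)) : tp C (x + y) = tp C x + tp C y :=
  map_add (C.pull (sw Y X)) x y

lemma tp_smul (r : ℚ) (x : C.A (X.prod Y)) : tp C (r • x) = r • tp C x :=
  map_smul (C.pull (sw Y X)) r x

lemma comp_smul' {Z : 𝒱.Obj} (r : ℚ) (x : C.A (X.prod Y)) (y : C.A (Y.prod Z)) :
    C.comp x (r • y) = r • C.comp x y := map_smul (compL C x) r y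

lemma smul_comp' {Z : 𝒱.Obj} (r : ℚ) (x : C.A (X.prod Y)) (y : C.A (Y.prod Z)) :
    C.comp (r • x) y = r • C.comp x y := LinearMap.congr_fun (map_smul (compL C) r x) y

lemma splits_of_orth {f : C.A (Y.prod Y)} {a : C.A (X.prod Y)} {c : ℚ} (hd : X.dim = Y.dim)
    (ha : C.Deg X.dim a) : C.Deg Y.dim (c • tp C a) := by
  have h1 : tp C a ∈ C.gr (Y.prod X) X.dim := C.pull_mem _ ha
  rw [hd] at h1
  exact Submodule.smul_mem _ _ h1

lemma tp_orth {f : C.A (Y.prod Y)} {a : C.A (X.prod Y)} {c : ℚ}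
    (hf : f + C.comp (c • tp C a) a = dg C Y) : tp C f = f := by
  have h1 : f = dg C Y - C.comp (c • tp C a) a := by rw [← hf, add_sub_cancel_right]
  have h2 : tp C (C.comp (c • tp C a) a) = C.comp (c • tp C a) a := by
    rw [tp_comp, tp_smul, tp_tp, comp_smul', smul_comp']
  have h3 : tp C (dg C Y - C.comp (c • tp C a) a) =
      tp C (dg C Y) - tp C (C.comp (c • tp C a) a) := map_sub (C.pull (sw Y Y)) _ _
  rw [h1, h3, tp_dg, h2]

end Pool.Agent.W543.CK
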