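import Pool.Agent.W543.CK.Defs

/-!
# Direct sums of motives: definitions
-/

open CategoryTheory AlgebraicGeometry

universe u v w

namespace Pool.Agent.W543.CK

open Pool.Agent.H914 Pool.Agent.H914.VarClass Pool.Agent.H914.VarClass.Obj Pool.Agent.W492.BB
  Pool.Agent.W550.Corr Pool.Agent.W550.Murre

variable {k : Type u} [Field k] {𝒱 : VarClass k} {C : TheoryData.{u, v, 0} 𝒱 ℚ} {K : Type w}
  [Field K] {X Y : 𝒱.Obj}

/-- The motive of `Y` is the direct sum of the motive of `X` and of the motive `(Y, f)`: there are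
correspondences of degree zero `a` from `X` to `Y` and `b` from `Y` to `X` such that the composite
`X → Y → X` is the identity and the composite `Y → X → Y` is the complement `Δ - f` of the
correspondence `f` (which is then idempotent). For example, `Y` is a blow-up of `X`. -/
def SplitsOff (C : TheoryData.{u, v, 0} 𝒱 ℚ) (X Y : 𝒱.Obj) (f : C.A (Y.prod Y)) : Prop :=
  ∃ (a : C.A (X.prod Y)) (b : C.A (Y.prod X)), C.Deg X.dim a ∧ C.Deg Y.dim b ∧
    C.comp a b = dg C X ∧ f + C.comp b a = dg C Y

/-- The motive `(Y, f)` has a Chow-Kunneth decomposition: `f` is a sum of orthogonal idempotents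
`q j`, where `q j` acts on `H^j(Y)` as `f` and on `H^l(Y)`, `l ≠ j`, as zero. -/
structure IsCKOf (H : WeilTheoryData.{u, v, w} C K) (f : C.A (Y.prod Y))
    (q : ℕ → C.A (Y.prod Y)) : Prop where
  deg : ∀ j, C.Deg Y.dim (q j)
  mul : ∀ i j, C.comp (q i) (q j) = if i = j then q i else 0
  sum : ∑ j ∈ Finset.range (2 * Y.dim + 1), q j = f
  vanish : ∀ j, 2 * Y.dim < j → q j = 0
  coh : ∀ (j : ℕ) (l : ℤ) (a : H.A Y), H.Deg l a →
    H.act (H.cl (q j)) a = if l = j then H.act (H.cl f) a else 0

/-- The homologically trivial endomorphisms of the motive `(Y, f)` are nilpotent. (For example, this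
holds if the motive is finite-dimensional in the sense of Kimura and O'Sullivan.) -/
def NilEnd (H : WeilTheoryData.{u, v, w} C K) (f : C.A (Y.prod Y)) : Prop :=
  ∀ x : C.A (Y.prod Y), C.Deg Y.dim x → C.comp f x = x → C.comp x f = x → H.cl x = 0 →
    ∃ n, cpow x n = 0

/-- The motive of `Y` is the direct sum of the motive of `X` and of a motive `N` which has a
Chow-Kunneth decomposition and whose homologically trivial endomorphisms are nilpotent. -/
def Link (H : WeilTheoryData.{u, v, w} C K) (X Y : 𝒱.Obj) : Prop :=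
  ∃ f : C.A (Y.prod Y), SplitsOff C X Y f ∧ (∃ q, IsCKOf H f q) ∧ NilEnd H f

end Pool.Agent.W543.CK
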