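import Pool.Agent.W543.CK.SumDefs
import Pool.Agent.W543.CK.Cancel
import Pool.Agent.W543.CK.Main

/-!
# Chow-Kunneth decompositions and direct sums
-/

open CategoryTheory AlgebraicGeometry

universe u v w

namespace Pool.Agent.W543.CK

open Pool.Agent.H914 Pool.Agent.H914.VarClass Pool.Agent.H914.VarClass.Obj Pool.Agent.W492.BB
  Pool.Agent.W550.Corr Pool.Agent.W550.Murre

variable {k : Type u} [Field k] {𝒱 : VarClass k} {C : TheoryData.{u, v, 0} 𝒱 ℚ} {K : Type w}
  [Field K] {H : WeilTheoryData.{u, v, w} C K} [hC : IsChow C] [hI : HasIso C] [hH : IsWeil H]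
  {X Y : 𝒱.Obj}

noncomputable local instance instE3 (C : TheoryData.{u, v, 0} 𝒱 ℚ) [IsChow C] [HasIso C]
    (X : 𝒱.Obj) : Ring (EndC C X) := endRing C X

noncomputable local instance instH3 (H : WeilTheoryData.{u, v, w} C K) [IsWeil H] (X : 𝒱.Obj) :
    Ring (EndC H.toTheoryData X) := endRing H.toTheoryData X

/-- Cohomology vanishes outside the degrees `0, ..., 2d`. -/
lemma coh_zero [hS : IsStandard H] {l : ℤ} {a : H.A X} (ha : H.Deg l a)
    (hl : ¬ (0 ≤ l ∧ l ≤ 2 * X.dim)) : a = 0 := by
  by_cases hl0 : l < 0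
  · have h7 := H.gr_neg X l hl0
    have h8 : a ∈ H.gr X l := ha
    rw [h7] at h8
    exact (Submodule.mem_bot _).1 h8
  · exact grH_top ha (by omega)

/-- A Chow-Kunneth decomposition from a system of arbitrary length. -/
lemma hasCK_of_system (hS : IsStandard H) {n : ℕ} {g : ℕ → C.A (X.prod X)}
    (hdeg : ∀ j, C.Deg X.dim (g j))
    (hmul : ∀ i j, C.comp (g i) (g j) = if i = j then g i else 0)
    (hsum : ∑ j ∈ Finset.range n, g j = dg C X)
    (hcoh : ∀ j < n, ∀ (l : ℤ) (a : H.A X), H.Deg l a →
      H.act (H.cl (g j)) a = if l = j then a else 0) : HasCK H X := by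
  classical
  set γ : ℕ → ℕ := fun i => if i ≤ 2 * X.dim then i else 0 with hγ
  have hγle : ∀ i, γ i ≤ 2 * X.dim := by
    intro i
    rw [hγ]
    change (if i ≤ 2 * X.dim then i else 0) ≤ _
    split_ifs with h
    · exact h
    · exact Nat.zero_le _
  set G : ℕ → C.A (X.prod X) := fun j => ∑ i ∈ (Finset.range n).filter (fun i => γ i = j), g i
    with hG
  have hGm : ∀ i j, C.comp (G i) (G j) = if i = j then G i else 0 := by
    intro i j
    have h1 := regroup_mul (R := EndC C X) (n := n) (q := fun i => toE (g i))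
      (fun i j => by
        apply ofE_inj
        rw [ofE_mul]
        have h2 := hmul i j
        change C.comp (g i) (g j) = _
        rw [h2]
        split_ifs <;> rfl) γ i j
    have h2 : ∀ j, (∑ a ∈ (Finset.range n).filter (fun a => γ a = j), toE (g a) : EndC C X) =
        toE (G j) := by
      intro j
      apply ofE_inj
      rw [ofE_sum]
      rfl
    rw [h2, h2] at h1
    have h3 := congrArg ofE h1
    rw [ofE_mul] at h3
    split_ifs at h3 ⊢
    · exact h3
    · exact h3
  have hone : ∀ {m : ℕ} {a : H.A X}, H.Deg (m : ℤ) a → n ≤ m → a = 0 := by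
    intro m a ha hm
    have h1 := act_dg H.toTheoryData a
    rw [← cl_dg, ← hsum, map_sum, act_sum] at h1
    rw [← h1]
    refine Finset.sum_eq_zero fun j hj => ?_
    rw [hcoh j (Finset.mem_range.1 hj) m a ha, if_neg]
    have := Finset.mem_range.1 hj
    omega
  refine ⟨G, ⟨fun j => Submodule.sum_mem _ fun i _ => hdeg i, fun j => ?_, fun i j hij => ?_, ?_,
    fun j hj => ?_, fun j l a ha => ?_⟩⟩
  · rw [hGm, if_pos rfl]
  · rw [hGm, if_neg hij]
  · rw [← hsum, hG]
    exact Finset.sum_fiberwise_of_maps_to
      (fun i _ => Finset.mem_range.2 (Nat.lt_succ_of_le (hγle i))) _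
  · rw [hG]
    refine Finset.sum_eq_zero fun i hi => ?_
    have h1 := (Finset.mem_filter.1 hi).2
    have h2 := hγle i
    omega
  · by_cases hl : 0 ≤ l ∧ l ≤ 2 * X.dim
    · obtain ⟨m, rfl⟩ := Int.eq_ofNat_of_zero_le hl.1
      have hm : m ≤ 2 * X.dim := by omega
      by_cases hmn : m < n
      · have h1 : H.act (H.cl (G j)) a =
            ∑ i ∈ (Finset.range n).filter (fun i => γ i = j), if (m : ℤ) = i then a else 0 := by
          rw [hG, map_sum, act_sum]
          apply Finset.sum_congr rfl
          intro i hi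
          exact hcoh i (Finset.mem_range.1 (Finset.mem_filter.1 hi).1) m a ha
        rw [h1]
        have hγm : γ m = m := if_pos hm
        split_ifs with hmj
        · have hmj' : m = j := by exact_mod_cast hmj
          rw [Finset.sum_eq_single_of_mem m
            (Finset.mem_filter.2 ⟨Finset.mem_range.2 hmn, by rw [hγm, hmj']⟩)]
          · rw [if_pos rfl]
          · intro i _ him
            rw [if_neg]
            omega
        · refine Finset.sum_eq_zero fun i hi => ?_
          rw [if_neg]
          intro h2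
          apply hmj
          have h3 : m = i := by exact_mod_cast h2
          have h4 := (Finset.mem_filter.1 hi).2
          rw [← h3, hγm] at h4
          rw [h4]
      · rw [hone ha (by omega), ite_self]
        exact H.act_map_zero _
    · rw [coh_zero ha hl, ite_self]
      exact H.act_map_zero _

omit hH in
lemma mul_zero_of_splits {f : C.A (Y.prod Y)} {a : C.A (X.prod Y)} {b : C.A (Y.prod X)}
    (hab : C.comp a b = dg C X) (hf : f + C.comp b a = dg C Y) :
    C.comp a f = 0 ∧ C.comp f b = 0 := by
  constructor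
  · have h1 := congrArg (fun x => C.comp a x) hf
    simp only [comp_add, comp_dg] at h1
    rw [← comp_assoc, hab, dg_comp] at h1
    simpa using h1
  · have h1 := congrArg (fun x => C.comp x b) hf
    simp only [add_comp, dg_comp] at h1
    rw [comp_assoc, hab, comp_dg] at h1
    simpa using h1

/-- From the summands to the sum. -/
theorem ck_of_summands (hS : IsStandard H) {f : C.A (Y.prod Y)} (hs : SplitsOff C X Y f)
    {q : ℕ → C.A (Y.prod Y)} (hq : IsCKOf H f q) (hX : HasCK H X) : HasCK H Y := by
  obtain ⟨a, b, ha, hb, hab, hf⟩ := hs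
  obtain ⟨π, hπ⟩ := hX
  obtain ⟨haf, hfb⟩ := mul_zero_of_splits hab hf
  have ha0 : a ∈ C.gr (X.prod Y) (X.dim + 0) := by rw [add_zero]; exact ha
  have hb0 : b ∈ C.gr (Y.prod X) (Y.dim + 0) := by rw [add_zero]; exact hb
  have hfq : ∀ j, C.comp f (q j) = q j := by
    intro j
    by_cases hj : j < 2 * Y.dim + 1
    · rw [← hq.sum, sum_comp, Finset.sum_eq_single_of_mem j (Finset.mem_range.2 hj), hq.mul,
        if_pos rfl]
      intro i _ hij
      rw [hq.mul, if_neg hij]
    · rw [hq.vanish j (by omega), comp_zero]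
  have hqf : ∀ j, C.comp (q j) f = q j := by
    intro j
    by_cases hj : j < 2 * Y.dim + 1
    · rw [← hq.sum, comp_sum, Finset.sum_eq_single_of_mem j (Finset.mem_range.2 hj), hq.mul,
        if_pos rfl]
      intro i _ hij
      rw [hq.mul, if_neg (Ne.symm hij)]
    · rw [hq.vanish j (by omega), zero_comp]
  have haq : ∀ j, C.comp a (q j) = 0 := by
    intro j
    rw [← hfq j, ← comp_assoc, haf, zero_comp]
  have hqb : ∀ j, C.comp (q j) b = 0 := by
    intro j
    rw [← hqf j, comp_assoc, hfb, comp_zero]
  set N := max (2 * X.dim + 1) (2 * Y.dim + 1) with hN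
  have hπs : ∑ j ∈ Finset.range N, π j = dg C X := by
    rw [← hπ.sum]
    refine (Finset.sum_subset (Finset.range_mono (le_max_left _ _)) fun j _ hj => ?_).symm
    rw [Finset.mem_range] at hj
    exact hπ.vanish j (by omega)
  have hqs : ∑ j ∈ Finset.range N, q j = f := by
    rw [← hq.sum]
    refine (Finset.sum_subset (Finset.range_mono (le_max_right _ _)) fun j _ hj => ?_).symm
    rw [Finset.mem_range] at hj
    exact hq.vanish j (by omega)
  apply hasCK_of_system hS (n := N) (g := fun j => C.comp (C.comp b (π j)) a + q j)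
  · intro j
    refine Submodule.add_mem _ ?_ (hq.deg j)
    have h1 : π j ∈ C.gr (X.prod X) (X.dim + 0) := by rw [add_zero]; exact hπ.deg j
    have h2 := deg_comp (deg_comp hb0 h1) ha0
    simpa using h2
  · intro i j
    have e1 : C.comp (C.comp (C.comp b (π i)) a) (C.comp (C.comp b (π j)) a) =
        C.comp (C.comp b (C.comp (π i) (π j))) a := by
      calc C.comp (C.comp (C.comp b (π i)) a) (C.comp (C.comp b (π j)) a) =
          C.comp (C.comp b (C.comp (π i) (C.comp (C.comp a b) (π j)))) a := by
            simp only [comp_assoc]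
        _ = _ := by rw [hab, dg_comp]
    have e2 : C.comp (C.comp (C.comp b (π i)) a) (q j) = 0 := by
      rw [comp_assoc, haq, comp_zero]
    have e3 : C.comp (q i) (C.comp (C.comp b (π j)) a) = 0 := by
      rw [← comp_assoc, ← comp_assoc, hqb, zero_comp, zero_comp]
    rw [comp_add, add_comp, add_comp, e1, e2, e3, hq.mul]
    split_ifs with hij
    · subst hij
      rw [hπ.idem]
      abel
    · rw [hπ.orth i j hij, comp_zero, zero_comp]
      abel
  · rw [Finset.sum_add_distrib, hqs, ← sum_comp, ← comp_sum, hπs, comp_dg, add_comm]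
    exact hf
  · intro j _ l c hc
    have h1 : H.act (H.cl b) c ∈ H.gr X l := by
      have := actH_mem H hb0 hc
      simpa using this
    rw [map_add, TheoryData.act_add, cl_comp, H.act_comp, cl_comp, H.act_comp, hπ.coh j l _ h1,
      hq.coh j l c hc]
    have h2 : H.act (H.cl f) c + H.act (H.cl a) (H.act (H.cl b) c) = c := by
      rw [← H.act_comp, ← cl_comp, ← TheoryData.act_add, ← map_add, hf, cl_dg, act_dg]
    split_ifs
    · rw [add_comm]; exact h2
    · rw [add_zero]; exact H.act_map_zero _

end Pool.Agent.W543.CK
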